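import Mathlib
import Pool.Agent.H373R2.T7.Fund

/-! The local factors for the pairs `N^2 + k + 1`, `(N+1)^2 - k`. -/

set_option autoImplicit false

namespace Pool.Agent.K7.H67.SQ

open Finset
open Pool.Agent.H373R2.T7 (pz mem_pz Vz)

/-- the condition `p ∣ (N^2 + k + 1) ((N+1)^2 - k)`, `k = u + n` -/
def Q (N u p n : ℕ) : Prop :=
  (p : ℤ) ∣ ((N : ℤ) ^ 2 + (u + n) + 1) * (((N : ℤ) + 1) ^ 2 - (u + n))

/-- the sum of the two numbers is twice this one -/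
def fN (N : ℕ) : ℕ := N ^ 2 + N + 1

lemma dvd_shift {p : ℤ} {a b : ℤ} (h : p ∣ a - b) : p ∣ a ↔ p ∣ b := by
  constructor
  · intro h1
    have := dvd_sub h1 h
    rwa [sub_sub_cancel] at this
  · intro h1
    have := dvd_add h h1
    rwa [sub_add_cancel] at this

lemma Q_per (N u p n : ℕ) : Q N u p n ↔ Q N u p (n % p) := by
  unfold Q
  apply dvd_shift
  have h : (p : ℤ) ∣ (n : ℤ) - ((n % p : ℕ) : ℤ) := by
    rw [Int.natCast_mod]
    exact Int.dvd_self_sub_emod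
  obtain ⟨t, ht⟩ := h
  set m : ℤ := ((n % p : ℕ) : ℤ)
  have e : (n : ℤ) = m + p * t := by linarith
  rw [e]
  refine ⟨t * (((N : ℤ) + 1) ^ 2 - (u + m)) - t * ((N : ℤ) ^ 2 + (u + m) + 1) - p * t * t, ?_⟩
  ring

/-- at most one solution of a linear congruence -/
lemma one_sol {p : ℕ} (c : ℤ) :
    (((range p).filter (fun n : ℕ => (p : ℤ) ∣ (n : ℤ) - c))).card ≤ 1 := by
  rw [card_le_one]
  intro a ha b hb
  rw [mem_filter, mem_range] at ha hb
  have h1 : (p : ℤ) ∣ (a : ℤ) - b := by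
    have := dvd_sub ha.2 hb.2
    have e : (a : ℤ) - c - (b - c) = a - b := by ring
    rwa [e] at this
  have h2 : (b : ℤ) ≡ a [ZMOD p] := Int.modEq_iff_dvd.2 h1
  have h3 : b ≡ a [MOD p] := (Int.natCast_modEq_iff).1 h2
  unfold Nat.ModEq at h3
  rw [Nat.mod_eq_of_lt ha.1, Nat.mod_eq_of_lt hb.1] at h3
  exact h3.symm

lemma Q_iff {N u p n : ℕ} (hp : p.Prime) : Q N u p n ↔
    (p : ℤ) ∣ (n : ℤ) - (-((N : ℤ) ^ 2 + u + 1)) ∨ (p : ℤ) ∣ (n : ℤ) - (((N : ℤ) + 1) ^ 2 - u) := by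
  unfold Q
  have hpi : Prime (p : ℤ) := Nat.prime_iff_prime_int.1 hp
  rw [hpi.dvd_mul]
  have e1 : (n : ℤ) - (-((N : ℤ) ^ 2 + u + 1)) = (N : ℤ) ^ 2 + (u + n) + 1 := by ring
  have e2 : (n : ℤ) - (((N : ℤ) + 1) ^ 2 - u) = -((((N : ℤ) + 1) ^ 2 - (u + n))) := by ring
  rw [e1, e2, dvd_neg]

open Classical in
lemma nu_le_two (N u p : ℕ) (hp : p.Prime) : Pool.Agent.H373R2.T7.nuB (Q N u) p ≤ 2 := by
  unfold Pool.Agent.H373R2.T7.nuB
  have h1 : (range p).filter (fun r => Q N u p r) =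
      (range p).filter (fun n : ℕ => (p : ℤ) ∣ (n : ℤ) - (-((N : ℤ) ^ 2 + u + 1))) ∪
      (range p).filter (fun n : ℕ => (p : ℤ) ∣ (n : ℤ) - (((N : ℤ) + 1) ^ 2 - u)) := by
    rw [← filter_or]
    apply filter_congr
    intro n _
    exact Q_iff hp
  rw [h1]
  refine (card_union_le _ _).trans ?_
  have := one_sol (p := p) (-((N : ℤ) ^ 2 + u + 1))
  have := one_sol (p := p) (((N : ℤ) + 1) ^ 2 - u)
  omega

lemma perB (N u : ℕ) : Pool.Agent.H373R2.T7.PerB (Q N u) 2 :=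
  ⟨fun p n => Q_per N u p n, fun p hp => nu_le_two N u p hp⟩

/-- a residue exists -/
lemma exists_sol {p : ℕ} (hp : 0 < p) (c : ℤ) : ∃ n ∈ range p, (p : ℤ) ∣ (n : ℤ) - c := by
  have hp' : (0 : ℤ) < p := by exact_mod_cast hp
  refine ⟨(c % p).toNat, ?_, ?_⟩
  · rw [mem_range]
    have h1 := Int.emod_lt_of_pos c hp'
    have h2 := Int.emod_nonneg c hp'.ne'
    omega
  · rw [Int.toNat_of_nonneg (Int.emod_nonneg c hp'.ne')]
    have : (p : ℤ) ∣ c - c % p := Int.dvd_self_sub_emod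
    have h2 := dvd_neg.2 this
    rwa [neg_sub] at h2

open Classical in
lemma nu_pos (N u p : ℕ) (hp : p.Prime) : 1 ≤ Pool.Agent.H373R2.T7.nuB (Q N u) p := by
  unfold Pool.Agent.H373R2.T7.nuB
  obtain ⟨n, hn, hd⟩ := exists_sol hp.pos (-((N : ℤ) ^ 2 + u + 1))
  rw [Nat.one_le_iff_ne_zero, Ne, card_eq_zero]
  intro h
  have : n ∈ (range p).filter (fun r => Q N u p r) := by
    rw [mem_filter]
    exact ⟨hn, (Q_iff hp).2 (Or.inl hd)⟩
  rw [h] at this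
  exact absurd this (notMem_empty _)

open Classical in
/-- two solutions if `p` does not divide the sum -/
lemma nu_two (N u p : ℕ) (hp : p.Prime) (hd : ¬ p ∣ 2 * fN N) :
    Pool.Agent.H373R2.T7.nuB (Q N u) p = 2 := by
  apply le_antisymm (nu_le_two N u p hp)
  unfold Pool.Agent.H373R2.T7.nuB
  obtain ⟨n, hn, hdn⟩ := exists_sol hp.pos (-((N : ℤ) ^ 2 + u + 1))
  obtain ⟨m, hm, hdm⟩ := exists_sol hp.pos (((N : ℤ) + 1) ^ 2 - u)
  have hne : n ≠ m := by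
    rintro rfl
    apply hd
    have h1 := dvd_sub hdn hdm
    have e : (n : ℤ) - (-((N : ℤ) ^ 2 + u + 1)) - ((n : ℤ) - (((N : ℤ) + 1) ^ 2 - u)) =
        ((2 * fN N : ℕ) : ℤ) := by
      unfold fN; push_cast; ring
    rw [e] at h1
    exact_mod_cast h1
  have h2 : ({n, m} : Finset ℕ) ⊆ (range p).filter (fun r => Q N u p r) := by
    intro x hx
    rw [mem_insert, mem_singleton] at hx
    rw [mem_filter]
    rcases hx with rfl | rfl
    · exact ⟨hn, (Q_iff hp).2 (Or.inl hdn)⟩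
    · exact ⟨hm, (Q_iff hp).2 (Or.inr hdm)⟩
  calc 2 = ({n, m} : Finset ℕ).card := (card_pair hne).symm
    _ ≤ _ := card_le_card h2

open Classical in
lemma nu_at_two (N u : ℕ) : Pool.Agent.H373R2.T7.nuB (Q N u) 2 ≤ 1 := by
  unfold Pool.Agent.H373R2.T7.nuB
  have h1 : (range 2).filter (fun r => Q N u 2 r) ⊆
      (range 2).filter (fun n : ℕ => ((2 : ℕ) : ℤ) ∣ (n : ℤ) - (-((N : ℤ) ^ 2 + u + 1))) := by
    intro n hn
    rw [mem_filter] at hn ⊢
    refine ⟨hn.1, ?_⟩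
    rcases (Q_iff Nat.prime_two).1 hn.2 with h | h
    · exact h
    · have e : (n : ℤ) - (-((N : ℤ) ^ 2 + u + 1)) = (n : ℤ) - (((N : ℤ) + 1) ^ 2 - u) +
          ((2 : ℕ) : ℤ) * ((N : ℤ) ^ 2 + N + 1) := by push_cast; ring
      rw [e]
      exact dvd_add h (Dvd.intro _ rfl)
  exact (card_le_card h1).trans (one_sol _)

end Pool.Agent.K7.H67.SQ
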