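import Mathlib
import Pool.Agent.K7.H67.SQ.Loc
import Pool.Agent.H373R2.T7.Cnt

/-! The average of the singular factor. -/

set_option autoImplicit false

namespace Pool.Agent.K7.H67.SQ

open Finset
open Pool.Agent.H373R2.T7 (pz mem_pz nuB nuB_le PerB count_sys)

/-- the condition `p ∣ 2 (n^2 + n + 1)` -/
def Qf (p n : ℕ) : Prop := p ∣ 2 * fN n

lemma Qf_per (p n : ℕ) : Qf p n ↔ Qf p (n % p) := by
  unfold Qf fN
  have h : n % p ≡ n [MOD p] := Nat.mod_modEq n p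
  have h1 : 2 * ((n % p) ^ 2 + n % p + 1) ≡ 2 * (n ^ 2 + n + 1) [MOD p] :=
    Nat.ModEq.mul_left _ (Nat.ModEq.add_right _ (Nat.ModEq.add (h.pow 2) h))
  exact (h1.dvd_iff (dvd_refl p)).symm

open Classical in
lemma Qf_few (p : ℕ) (hp : p.Prime) : nuB Qf p ≤ 2 := by
  rcases hp.eq_two_or_odd with rfl | hodd
  · exact nuB_le Qf 2
  unfold nuB
  by_cases hne : ((range p).filter (fun r => Qf p r)).Nonempty
  · obtain ⟨a, ha⟩ := hne
    rw [mem_filter] at ha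
    have hdiv : ∀ n : ℕ, Qf p n → (p : ℤ) ∣ (n : ℤ) ^ 2 + n + 1 := by
      intro n hn
      unfold Qf fN at hn
      have hc : Nat.Coprime p 2 := by
        rw [Nat.coprime_primes hp Nat.prime_two]
        rintro rfl
        omega
      have h2 : p ∣ n ^ 2 + n + 1 := hc.dvd_of_dvd_mul_left hn
      exact_mod_cast h2
    have hsub : (range p).filter (fun r => Qf p r) ⊆
        {a} ∪ (range p).filter (fun n : ℕ => (p : ℤ) ∣ (n : ℤ) - (-(a : ℤ) - 1)) := by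
      intro b hb
      rw [mem_filter] at hb
      rw [mem_union, mem_singleton, mem_filter]
      have h1 := dvd_sub (hdiv a ha.2) (hdiv b hb.2)
      have e : ((a : ℤ) ^ 2 + a + 1) - ((b : ℤ) ^ 2 + b + 1) = (a - b) * (b - (-(a : ℤ) - 1)) := by ring
      rw [e] at h1
      rcases (Nat.prime_iff_prime_int.1 hp).dvd_or_dvd h1 with h3 | h3
      · left
        have h2 : (b : ℤ) ≡ a [ZMOD p] := Int.modEq_iff_dvd.2 h3
        have h4 : b ≡ a [MOD p] := (Int.natCast_modEq_iff).1 h2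
        unfold Nat.ModEq at h4
        rw [Nat.mod_eq_of_lt (mem_range.1 ha.1), Nat.mod_eq_of_lt (mem_range.1 hb.1)] at h4
        exact h4
      · right
        exact ⟨hb.1, h3⟩
    refine (card_le_card hsub).trans ((card_union_le _ _).trans ?_)
    have := one_sol (p := p) (-(a : ℤ) - 1)
    rw [card_singleton]
    omega
  · rw [not_nonempty_iff_eq_empty] at hne
    rw [hne]
    simp

open Classical in
lemma cnt_le (Y : ℕ) (S : Finset ℕ) (hS : ∀ p ∈ S, p.Prime) :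
    ((((Icc 1 Y).filter (fun n => ∀ p ∈ S, Qf p n)).card : ℕ) : ℝ) ≤
      Y * ∏ p ∈ S, (2 / (p : ℝ)) + ∏ _p ∈ S, (2 : ℝ) := by
  have h3 := count_sys (fun p a => Qf p a) Y S hS 1 le_rfl
    (fun p hp hd => (hS p hp).one_lt.ne' (Nat.dvd_one.1 hd)) 0
  have e1 : ((Icc 1 Y).filter (fun n => ∀ p ∈ S, Qf p n)) =
      ((Icc 1 Y).filter (fun n => n ≡ 0 [MOD 1] ∧ ∀ p ∈ S, Qf p (n % p))) := by
    apply filter_congr
    intro n _
    constructor
    · intro h
      exact ⟨Nat.modEq_one, fun p hp => (Qf_per p n).1 (h p hp)⟩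
    · rintro ⟨_, h⟩ p hp
      exact (Qf_per p n).2 (h p hp)
  have h4 : ∏ p ∈ S, ((((range p).filter (fun a => Qf p a)).card : ℝ) / p) ≤ ∏ p ∈ S, (2 / (p : ℝ)) := by
    apply prod_le_prod (fun _ _ => by positivity)
    intro p hp
    apply div_le_div_of_nonneg_right _ (Nat.cast_nonneg _)
    exact_mod_cast Qf_few p (hS p hp)
  have h5 : ∏ p ∈ S, (((range p).filter (fun a => Qf p a)).card : ℝ) ≤ ∏ _p ∈ S, (2 : ℝ) := by
    apply prod_le_prod (fun _ _ => by positivity)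
    intro p hp
    exact_mod_cast Qf_few p (hS p hp)
  have h6 := (abs_le.1 h3).2
  have h7 : (Y : ℝ) / ((1 : ℕ) : ℝ) * ∏ p ∈ S, ((((range p).filter (fun a => Qf p a)).card : ℝ) / p) ≤
      Y * ∏ p ∈ S, (2 / (p : ℝ)) := by
    rw [Nat.cast_one, div_one]
    exact mul_le_mul_of_nonneg_left h4 (Nat.cast_nonneg _)
  rw [e1]
  linarith

open Classical in
lemma avg_prod (w : ℝ) (hw : 0 ≤ w) (Y : ℕ) (S : Finset ℕ) (hS : ∀ p ∈ S, p.Prime) :
    ∑ n ∈ Icc 1 Y, ∏ p ∈ S.filter (fun p => p ∣ 2 * fN n), (1 + w / (p : ℝ)) ≤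
      Y * ∏ p ∈ S, (1 + 2 * w / (p : ℝ) ^ 2) + ∏ p ∈ S, (1 + 2 * w / (p : ℝ)) := by
  have h1 : ∀ n ∈ Icc 1 Y, ∏ p ∈ S.filter (fun p => p ∣ 2 * fN n), (1 + w / (p : ℝ)) =
      ∑ T ∈ S.powerset, (∏ p ∈ T, (w / (p : ℝ))) * (if ∀ p ∈ T, Qf p n then 1 else 0) := by
    intro n _
    rw [prod_filter]
    have e1 : ∏ p ∈ S, (if p ∣ 2 * fN n then (1 + w / (p : ℝ)) else 1) =
        ∏ p ∈ S, (1 + (w / (p : ℝ)) * (if Qf p n then 1 else 0)) := by
      refine prod_congr rfl fun p _ => ?_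
      unfold Qf
      split_ifs <;> ring
    rw [e1, prod_one_add]
    refine sum_congr rfl fun T _ => ?_
    rw [prod_mul_distrib, prod_ite_zero]
    simp
  rw [sum_congr rfl h1, sum_comm]
  have h2 : ∀ T ∈ S.powerset, ∑ n ∈ Icc 1 Y, (∏ p ∈ T, (w / (p : ℝ))) * (if ∀ p ∈ T, Qf p n then 1 else 0) ≤
      Y * ∏ p ∈ T, (2 * w / (p : ℝ) ^ 2) + ∏ p ∈ T, (2 * w / (p : ℝ)) := by
    intro T hT
    rw [mem_powerset] at hT
    rw [← mul_sum]
    have e2 : ∑ n ∈ Icc 1 Y, (if ∀ p ∈ T, Qf p n then (1 : ℝ) else 0) =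
        ((((Icc 1 Y).filter (fun n => ∀ p ∈ T, Qf p n)).card : ℕ) : ℝ) := by
      rw [card_filter]
      push_cast
      rfl
    rw [e2]
    have h3 := cnt_le Y T (fun p hp => hS p (hT hp))
    have h4 : 0 ≤ ∏ p ∈ T, (w / (p : ℝ)) := prod_nonneg fun p _ => by positivity
    refine (mul_le_mul_of_nonneg_left h3 h4).trans (le_of_eq ?_)
    rw [mul_add]
    congr 1
    · rw [mul_left_comm, ← prod_mul_distrib]
      congr 1
      refine prod_congr rfl fun p hp => ?_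
      have hp0 : (p : ℝ) ≠ 0 := by exact_mod_cast (hS p (hT hp)).ne_zero
      field_simp
    · rw [← prod_mul_distrib]
      refine prod_congr rfl fun p hp => ?_
      ring
  refine (sum_le_sum h2).trans (le_of_eq ?_)
  rw [sum_add_distrib, ← mul_sum, ← prod_one_add, ← prod_one_add]

lemma prod_exp_le (S : Finset ℕ) (f : ℕ → ℝ) (hf : ∀ p ∈ S, 0 ≤ f p) :
    ∏ p ∈ S, (1 + f p) ≤ Real.exp (∑ p ∈ S, f p) := by
  rw [Real.exp_sum]
  apply prod_le_prod
  · intro p hp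
    have := hf p hp
    linarith
  · intro p _
    have := Real.add_one_le_exp (f p)
    linarith

lemma sum_inv_sq (y : ℕ) : ∑ n ∈ Icc 1 y, 1 / (n : ℝ) ^ 2 ≤ 2 := by
  have key : ∀ m : ℕ, ∑ n ∈ Icc 1 (m + 1), 1 / (n : ℝ) ^ 2 ≤ 2 - 1 / ((m : ℝ) + 1) := by
    intro m
    induction m with
    | zero => simp; norm_num
    | succ m ih =>
      rw [sum_Icc_succ_top (by omega)]
      push_cast
      have h1 : 1 / ((m : ℝ) + 1 + 1) ^ 2 ≤ 1 / ((m : ℝ) + 1) - 1 / ((m : ℝ) + 1 + 1) := by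
        rw [div_sub_div _ _ (by positivity) (by positivity), div_le_div_iff₀ (by positivity) (by positivity)]
        nlinarith [Nat.cast_nonneg (α := ℝ) m]
      linarith
  rcases Nat.eq_zero_or_pos y with rfl | h
  · simp
  · obtain ⟨m, rfl⟩ := Nat.exists_eq_succ_of_ne_zero h.ne'
    have h2 := key m
    have h3 : 0 ≤ 1 / ((m : ℝ) + 1) := by positivity
    exact h2.trans (by linarith)

lemma sum_inv_le (y : ℕ) : ∑ n ∈ Icc 1 y, 1 / (n : ℝ) ≤ 1 + Real.log y := by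
  have h := harmonic_le_one_add_log y
  rw [harmonic_eq_sum_Icc] at h
  push_cast at h
  simpa [one_div] using h

lemma pz_sub (y : ℕ) : pz y ⊆ Icc 1 y := by
  intro p hp
  rw [mem_pz] at hp
  exact mem_Icc.2 ⟨hp.2.one_le, hp.1⟩

/-- the average of the squares of the singular factors -/
theorem avg_sq : ∃ C : ℝ, 0 < C ∧ ∀ Y y : ℕ, 1 ≤ y → y ^ 12 ≤ Y →
    ∑ n ∈ Icc 1 Y, (∏ p ∈ (pz y).filter (fun p => p ∣ 2 * fN n), (1 + 2 / (p : ℝ))) ^ 2 ≤ C * Y := by
  classical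
  refine ⟨Real.exp 24 + Real.exp 12, by positivity, fun Y y hy hyY => ?_⟩
  have hpr : ∀ p ∈ pz y, p.Prime := fun p hp => (mem_pz.1 hp).2
  have h1 : ∀ n ∈ Icc 1 Y, (∏ p ∈ (pz y).filter (fun p => p ∣ 2 * fN n), (1 + 2 / (p : ℝ))) ^ 2 ≤
      ∏ p ∈ (pz y).filter (fun p => p ∣ 2 * fN n), (1 + 6 / (p : ℝ)) := by
    intro n _
    rw [← prod_pow]
    apply prod_le_prod
    · intro p _
      positivity
    · intro p hp
      have hp2 : (2 : ℝ) ≤ p := by exact_mod_cast (hpr p (mem_filter.1 hp).1).two_le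
      have hp0 : (0 : ℝ) < p := by linarith
      have h6 : 0 < 1 / (p : ℝ) := by positivity
      have h7 : 1 / (p : ℝ) ≤ 1 / 2 := one_div_le_one_div_of_le (by norm_num) hp2
      have e2 : 2 / (p : ℝ) = 2 * (1 / p) := by ring
      have e6 : 6 / (p : ℝ) = 6 * (1 / p) := by ring
      rw [e2, e6]
      set t := 1 / (p : ℝ)
      nlinarith
  refine (sum_le_sum h1).trans ((avg_prod 6 (by norm_num) Y (pz y) hpr).trans ?_)
  have h2 : ∏ p ∈ pz y, (1 + 2 * 6 / (p : ℝ) ^ 2) ≤ Real.exp 24 := by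
    refine (prod_exp_le _ _ (fun p _ => by positivity)).trans (Real.exp_le_exp.2 ?_)
    calc ∑ p ∈ pz y, 2 * 6 / (p : ℝ) ^ 2 ≤ ∑ p ∈ Icc 1 y, 2 * 6 / (p : ℝ) ^ 2 :=
          sum_le_sum_of_subset_of_nonneg (pz_sub y) (fun _ _ _ => by positivity)
      _ = 12 * ∑ p ∈ Icc 1 y, 1 / (p : ℝ) ^ 2 := by
          rw [mul_sum]
          refine sum_congr rfl fun p _ => ?_
          ring
      _ ≤ 24 := by have := sum_inv_sq y; linarith
  have h3 : ∏ p ∈ pz y, (1 + 2 * 6 / (p : ℝ)) ≤ Real.exp 12 * Y := by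
    refine (prod_exp_le _ _ (fun p _ => by positivity)).trans ?_
    have h4 : ∑ p ∈ pz y, 2 * 6 / (p : ℝ) ≤ 12 + 12 * Real.log y := by
      calc ∑ p ∈ pz y, 2 * 6 / (p : ℝ) ≤ ∑ p ∈ Icc 1 y, 2 * 6 / (p : ℝ) :=
            sum_le_sum_of_subset_of_nonneg (pz_sub y) (fun _ _ _ => by positivity)
        _ = 12 * ∑ p ∈ Icc 1 y, 1 / (p : ℝ) := by
            rw [mul_sum]
            refine sum_congr rfl fun p _ => ?_
            ring
        _ ≤ 12 + 12 * Real.log y := by have := sum_inv_le y; linarith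
    refine (Real.exp_le_exp.2 h4).trans ?_
    rw [Real.exp_add]
    apply mul_le_mul_of_nonneg_left _ (Real.exp_pos _).le
    have hy0 : (0 : ℝ) < y := by exact_mod_cast hy
    have e3 : Real.exp (12 * Real.log y) = (y : ℝ) ^ 12 := by
      have : (12 : ℝ) * Real.log y = Real.log ((y : ℝ) ^ 12) := by rw [Real.log_pow]; norm_num
      rw [this, Real.exp_log (by positivity)]
    rw [e3]
    exact_mod_cast hyY
  have hY : (0 : ℝ) ≤ Y := Nat.cast_nonneg _
  nlinarith [mul_le_mul_of_nonneg_left h2 hY]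

end Pool.Agent.K7.H67.SQ
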