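import Mathlib
import Pool.Agent.W24.CP.SP
import Pool.Agent.R485.Trans.Saw

/-! Primes in residue classes whose square root has a prescribed integral part modulo `q`
and a prescribed fractional part. -/

set_option autoImplicit false

namespace Pool.Agent.K7.H67.SQ

open Finset
open Pool.Agent.H469R2.NK (e norm_e e_add e_zero conj_e)
open Pool.Agent.H425R3.JL (PR)

lemma e_nat_mul (c : ℕ) (x : ℝ) : e (c * x) = e x ^ c := by
  induction c with
  | zero => simp [e_zero]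
  | succ c ih =>
    push_cast
    rw [add_mul, one_mul, e_add, ih, pow_succ]

lemma e_int (m : ℤ) : e m = 1 := by
  unfold e
  rw [Complex.exp_eq_one_iff]
  exact ⟨m, by push_cast; ring⟩

lemma e_eq_one {x : ℝ} (h : e x = 1) : ∃ n : ℤ, x = n := by
  unfold e at h
  rw [Complex.exp_eq_one_iff] at h
  obtain ⟨n, hn⟩ := h
  refine ⟨n, ?_⟩
  have h2 : (2 * Real.pi * Complex.I : ℂ) ≠ 0 := Complex.two_pi_I_ne_zero
  have h3 : ((x : ℂ) - n) * (2 * Real.pi * Complex.I) = 0 := by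
    push_cast at hn
    linear_combination hn
  rcases mul_eq_zero.1 h3 with h4 | h4
  · have : (x : ℂ) = ((n : ℝ) : ℂ) := by
      rw [sub_eq_zero] at h4
      rw [h4]; push_cast; rfl
    exact_mod_cast this
  · exact absurd h4 h2

lemma orth {q : ℕ} (hq : 0 < q) (m : ℤ) :
    ∑ c ∈ range q, e (c * ((m : ℝ) / q)) = if (q : ℤ) ∣ m then (q : ℂ) else 0 := by
  have hq0 : (q : ℝ) ≠ 0 := by exact_mod_cast hq.ne'
  split_ifs with h
  · obtain ⟨t, rfl⟩ := h
    have : ∀ c ∈ range q, e (c * ((((q : ℤ) * t : ℤ) : ℝ) / q)) = 1 := by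
      intro c _
      have e1 : (c : ℝ) * ((((q : ℤ) * t : ℤ) : ℝ) / q) = (((c : ℤ) * t : ℤ) : ℝ) := by
        push_cast
        field_simp
      rw [e1, e_int]
    rw [sum_congr rfl this]
    simp
  · have h1 : e ((m : ℝ) / q) ≠ 1 := by
      intro h1
      obtain ⟨n, hn⟩ := e_eq_one h1
      apply h
      refine ⟨n, ?_⟩
      rw [div_eq_iff hq0] at hn
      have : (m : ℝ) = ((q * n : ℤ) : ℝ) := by push_cast; linarith
      exact_mod_cast this
    have h2 : ∀ c ∈ range q, e (c * ((m : ℝ) / q)) = e ((m : ℝ) / q) ^ c := fun c _ => e_nat_mul c _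
    rw [sum_congr rfl h2, geom_sum_eq h1]
    have h3 : e ((m : ℝ) / q) ^ q = 1 := by
      rw [← e_nat_mul]
      have : (q : ℝ) * ((m : ℝ) / q) = m := by field_simp
      rw [this, e_int]
    rw [h3, sub_self, zero_div]

/-- exponential sums over the primes of a residue class -/
theorem class_es : ∃ C : ℝ, 0 < C ∧ ∀ N : ℕ, 9 ≤ N → ∀ q h : ℕ, 1 ≤ q → 1 ≤ h →
    (q : ℝ) ≤ (N : ℝ) ^ (1 / 32 : ℝ) → (h : ℝ) ≤ (N : ℝ) ^ (1 / 32 : ℝ) → ∀ b < q,
    ‖∑ p ∈ (PR N).filter (fun p => p % q = b), e (h * (√(p : ℝ) / q))‖ ≤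
      C * (N : ℝ) ^ (127 / 128 : ℝ) := by
  obtain ⟨C, hC, H⟩ := Pool.Agent.W24.CP.SP.prime_es
  refine ⟨C, hC, fun N hN q h hq hh hqN hhN b hb => ?_⟩
  have hq0 : (0 : ℝ) < q := by exact_mod_cast hq
  have hh0 : (0 : ℝ) < h := by exact_mod_cast hh
  have hq1 : (1 : ℝ) ≤ q := by exact_mod_cast hq
  have hh1 : (1 : ℝ) ≤ h := by exact_mod_cast hh
  have hθ : |(h : ℝ) / q| + 1 / |(h : ℝ) / q| ≤ 2 * (N : ℝ) ^ (1 / 32 : ℝ) := by
    rw [abs_of_pos (by positivity), one_div_div]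
    have h1 : (h : ℝ) / q ≤ h := div_le_self hh0.le hq1
    have h2 : (q : ℝ) / h ≤ q := div_le_self hq0.le hh1
    linarith
  have key : (q : ℂ) * ∑ p ∈ (PR N).filter (fun p => p % q = b), e (h * (√(p : ℝ) / q)) =
      ∑ c ∈ range q, e (-(c * ((b : ℝ) / q))) *
        ∑ p ∈ PR N, e ((c / q) * p) * e ((h / q) * √(p : ℝ)) := by
    rw [mul_sum, sum_filter]
    have e1 : ∀ c ∈ range q, e (-(c * ((b : ℝ) / q))) *
        ∑ p ∈ PR N, e ((c / q) * p) * e ((h / q) * √(p : ℝ)) =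
        ∑ p ∈ PR N, e (c * ((((p : ℤ) - b : ℤ) : ℝ) / q)) * e ((h / q) * √(p : ℝ)) := by
      intro c _
      rw [mul_sum]
      refine sum_congr rfl fun p _ => ?_
      rw [← mul_assoc, ← e_add]
      congr 2
      push_cast
      ring
    rw [sum_congr rfl e1, sum_comm]
    refine sum_congr rfl fun p _ => ?_
    rw [← sum_mul, orth (by omega)]
    have e2 : (p % q = b) ↔ (q : ℤ) ∣ (p : ℤ) - b := by
      constructor
      · rintro rfl
        rw [Int.natCast_mod]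
        exact Int.dvd_self_sub_emod
      · intro hd
        have h1 : (b : ℤ) ≡ p [ZMOD q] := Int.modEq_iff_dvd.2 hd
        have h3 : b ≡ p [MOD q] := (Int.natCast_modEq_iff).1 h1
        unfold Nat.ModEq at h3
        rw [Nat.mod_eq_of_lt hb] at h3
        exact h3.symm
    by_cases h3 : p % q = b
    · rw [if_pos h3, if_pos (e2.1 h3)]
      congr 2
      ring
    · rw [if_neg h3, if_neg (fun h4 => h3 (e2.2 h4)), zero_mul]
  have h1 : (q : ℝ) * ‖∑ p ∈ (PR N).filter (fun p => p % q = b), e (h * (√(p : ℝ) / q))‖ ≤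
      q * (C * (N : ℝ) ^ (127 / 128 : ℝ)) := by
    have h2 := congrArg norm key
    rw [norm_mul, Complex.norm_natCast] at h2
    rw [h2]
    calc ‖∑ c ∈ range q, e (-(c * ((b : ℝ) / q))) *
          ∑ p ∈ PR N, e ((c / q) * p) * e ((h / q) * √(p : ℝ))‖
        ≤ ∑ c ∈ range q, C * (N : ℝ) ^ (127 / 128 : ℝ) := by
          refine (norm_sum_le _ _).trans (sum_le_sum fun c _ => ?_)
          rw [norm_mul, norm_e, one_mul]
          exact H N hN (h / q) (by positivity) hθ (c / q)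
      _ = q * (C * (N : ℝ) ^ (127 / 128 : ℝ)) := by rw [sum_const, card_range, nsmul_eq_mul]
  exact le_of_mul_le_mul_left h1 hq0

/-- the indicator function of an interval modulo one -/
lemma ind_fract {u v x : ℝ} (hu : 0 ≤ u) (huv : u ≤ v) (hv : v ≤ 1) :
    (if u ≤ Int.fract x ∧ Int.fract x < v then (1 : ℝ) else 0) =
      (v - u) + ((Int.fract (x - v) - 1 / 2) - (Int.fract (x - u) - 1 / 2)) := by
  have f0 := Int.fract_nonneg x
  have f1 := Int.fract_lt_one x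
  have hx : x = ⌊x⌋ + Int.fract x := (Int.floor_add_fract x).symm
  set f := Int.fract x with hf
  have key : ∀ w : ℝ, 0 ≤ w → w ≤ 1 → Int.fract (x - w) = if w ≤ f then f - w else f - w + 1 := by
    intro w hw0 hw1
    split_ifs with h
    · rw [Int.fract_eq_iff]
      refine ⟨by linarith, by linarith, ⌊x⌋, ?_⟩
      rw [hx]
      simp only [Int.floor_intCast_add]
      rw [Int.floor_eq_zero_iff.2 ⟨f0, f1⟩]
      push_cast
      ring
    · push Not at h
      rw [Int.fract_eq_iff]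
      refine ⟨by linarith, by linarith, ⌊x⌋ - 1, ?_⟩
      push_cast
      linarith
  rw [key v (hu.trans huv) hv, key u hu (huv.trans hv)]
  by_cases h1 : u ≤ f
  · by_cases h2 : f < v
    · rw [if_pos ⟨h1, h2⟩, if_neg (not_le.2 h2), if_pos h1]; ring
    · rw [if_neg (fun h => h2 h.2), if_pos (not_lt.1 h2), if_pos h1]; ring
  · have h3 : ¬ v ≤ f := fun h => h1 (huv.trans h)
    rw [if_neg (fun h => h1 h.1), if_neg h3, if_neg h1]; ring

/-- equidistribution of `√p / q` modulo one in a residue class -/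
theorem class_count : ∃ C : ℝ, 0 < C ∧ ∀ N : ℕ, 9 ≤ N → ∀ q : ℕ, 1 ≤ q →
    (q : ℝ) ≤ (N : ℝ) ^ (1 / 32 : ℝ) → ∀ b < q, ∀ u v : ℝ, 0 ≤ u → u ≤ v → v ≤ 1 →
    |((((PR N).filter (fun p => p % q = b)).filter (fun p : ℕ =>
        u ≤ Int.fract (√(p : ℝ) / q) ∧ Int.fract (√(p : ℝ) / q) < v)).card : ℝ) -
      (v - u) * (((PR N).filter (fun p => p % q = b)).card : ℝ)| ≤ C * (N : ℝ) ^ (511 / 512 : ℝ) := by
  obtain ⟨C, hC, H⟩ := class_es
  refine ⟨2 * (C + 3), by positivity, fun N hN q hq hqN b hb u v hu huv hv => ?_⟩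
  set S := (PR N).filter (fun p => p % q = b) with hS
  have hN1 : (1 : ℝ) ≤ N := by exact_mod_cast (by omega : 1 ≤ N)
  have hN0 : (0 : ℝ) < N := by linarith
  have hScard : (S.card : ℝ) ≤ N := by
    have : S.card ≤ N := by
      calc S.card ≤ (PR N).card := card_filter_le _ _
        _ ≤ (Icc 1 N).card := card_filter_le _ _
        _ = N := by simp
    exact_mod_cast this
  set K : ℕ := ⌊(N : ℝ) ^ (1 / 256 : ℝ)⌋₊ with hK
  have hk1 : 1 ≤ (N : ℝ) ^ (1 / 256 : ℝ) := Real.one_le_rpow hN1 (by norm_num)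
  have hK1 : 1 ≤ K := by rw [hK, Nat.one_le_floor_iff]; exact hk1
  have hKr : (K : ℝ) ≤ (N : ℝ) ^ (1 / 256 : ℝ) := Nat.floor_le (by positivity)
  have hKr' : (N : ℝ) ^ (1 / 256 : ℝ) / 2 ≤ K := by
    have h1 := Nat.lt_floor_add_one ((N : ℝ) ^ (1 / 256 : ℝ))
    rw [← hK] at h1
    have h2 : (1 : ℝ) ≤ K := by exact_mod_cast hK1
    linarith
  set δ : ℝ := (N : ℝ) ^ (-(1 / 512) : ℝ) with hδ
  have hδ0 : 0 < δ := by positivity
  have hδ1 : δ ≤ 1 := Real.rpow_le_one_of_one_le_of_nonpos hN1 (by norm_num)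
  have hsaw : ∀ w : ℝ, |∑ p ∈ S, (Int.fract (√(p : ℝ) / q - w) - 1 / 2)| ≤
      (C + 3) * (N : ℝ) ^ (511 / 512 : ℝ) := by
    intro w
    refine (Pool.Agent.R485.Trans.saw_bound S (fun p : ℕ => √(p : ℝ) / q - w) K hK1 δ hδ0 hδ1).trans ?_
    have h1 : ∑ h ∈ Icc 1 K, ‖∑ p ∈ S, e (h * (√(p : ℝ) / q - w))‖ / h ≤
        C * (N : ℝ) ^ (511 / 512 : ℝ) := by
      calc ∑ h ∈ Icc 1 K, ‖∑ p ∈ S, e (h * (√(p : ℝ) / q - w))‖ / h
          ≤ ∑ h ∈ Icc 1 K, C * (N : ℝ) ^ (127 / 128 : ℝ) := by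
            refine sum_le_sum fun h hh => ?_
            have hh1 := (mem_Icc.1 hh).1
            have hhr : (1 : ℝ) ≤ h := by exact_mod_cast hh1
            have h2 : ‖∑ p ∈ S, e (h * (√(p : ℝ) / q - w))‖ =
                ‖∑ p ∈ S, e (h * (√(p : ℝ) / q))‖ := by
              have : ∀ p ∈ S, e (h * (√(p : ℝ) / q - w)) = e (-(h * w)) * e (h * (√(p : ℝ) / q)) := by
                intro p _
                rw [← e_add]; congr 1; ring
              rw [sum_congr rfl this, ← mul_sum, norm_mul, norm_e, one_mul]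
            rw [h2]
            refine (div_le_self (norm_nonneg _) hhr).trans ?_
            refine H N hN q h hq hh1 hqN ?_ b hb
            have h3 : (h : ℝ) ≤ K := by exact_mod_cast (mem_Icc.1 hh).2
            exact (h3.trans hKr).trans (Real.rpow_le_rpow_of_exponent_le hN1 (by norm_num))
        _ = K * (C * (N : ℝ) ^ (127 / 128 : ℝ)) := by
            rw [sum_const, Nat.card_Icc, Nat.add_sub_cancel, nsmul_eq_mul]
        _ ≤ (N : ℝ) ^ (1 / 256 : ℝ) * (C * (N : ℝ) ^ (127 / 128 : ℝ)) := by gcongr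
        _ = C * ((N : ℝ) ^ (1 / 256 : ℝ) * (N : ℝ) ^ (127 / 128 : ℝ)) := by ring
        _ = C * (N : ℝ) ^ (255 / 256 : ℝ) := by
            rw [← Real.rpow_add hN0]; norm_num
        _ ≤ C * (N : ℝ) ^ (511 / 512 : ℝ) := by
            apply mul_le_mul_of_nonneg_left _ hC.le
            exact Real.rpow_le_rpow_of_exponent_le hN1 (by norm_num)
    have h2 : (S.card : ℝ) / (K * δ) ≤ 2 * (N : ℝ) ^ (511 / 512 : ℝ) := by
      have hK0 : (0 : ℝ) < K := by exact_mod_cast hK1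
      rw [div_le_iff₀ (by positivity)]
      have h3 : (N : ℝ) ≤ 2 * (N : ℝ) ^ (511 / 512 : ℝ) * ((N : ℝ) ^ (1 / 256 : ℝ) / 2 * δ) := by
        have h4 : 2 * (N : ℝ) ^ (511 / 512 : ℝ) * ((N : ℝ) ^ (1 / 256 : ℝ) / 2 * δ) =
            (N : ℝ) ^ (511 / 512 : ℝ) * (N : ℝ) ^ (1 / 256 : ℝ) * δ := by ring
        rw [h4, hδ, ← Real.rpow_add hN0, ← Real.rpow_add hN0]
        norm_num
      refine (hScard.trans h3).trans ?_
      gcongr
    have h3 : (S.card : ℝ) * δ ≤ (N : ℝ) ^ (511 / 512 : ℝ) := by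
      calc (S.card : ℝ) * δ ≤ N * δ := by gcongr
        _ = (N : ℝ) ^ (511 / 512 : ℝ) := by
          nth_rewrite 1 [← Real.rpow_one (N : ℝ)]
          rw [hδ, ← Real.rpow_add hN0]; norm_num
    linarith
  have h1 : ((S.filter (fun p : ℕ =>
        u ≤ Int.fract (√(p : ℝ) / q) ∧ Int.fract (√(p : ℝ) / q) < v)).card : ℝ) -
      (v - u) * (S.card : ℝ) = ∑ p ∈ S, (Int.fract (√(p : ℝ) / q - v) - 1 / 2) -
        ∑ p ∈ S, (Int.fract (√(p : ℝ) / q - u) - 1 / 2) := by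
    rw [card_filter]
    push_cast
    have h2 : ∀ p ∈ S, (if u ≤ Int.fract (√(p : ℝ) / q) ∧ Int.fract (√(p : ℝ) / q) < v then (1 : ℝ) else 0) =
        (v - u) + ((Int.fract (√(p : ℝ) / q - v) - 1 / 2) - (Int.fract (√(p : ℝ) / q - u) - 1 / 2)) :=
      fun p _ => ind_fract hu huv hv
    rw [sum_congr rfl h2, sum_add_distrib, sum_const, nsmul_eq_mul, sum_sub_distrib]
    ring
  rw [h1]
  refine (abs_sub _ _).trans ?_
  have a1 := hsaw v
  have a2 := hsaw u
  linarith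

/-- the two conditions on the square root -/
lemma sqrt_cond {m q a : ℕ} (hq : 1 ≤ q) {α β : ℝ} (hα : 0 ≤ α) (hβ : β ≤ 1) :
    (((a : ℝ) + α) / q ≤ Int.fract (√(m : ℝ) / q) ∧ Int.fract (√(m : ℝ) / q) < ((a : ℝ) + β) / q) ↔
      (Nat.sqrt m % q = a ∧ α ≤ √(m : ℝ) - Nat.sqrt m ∧ √(m : ℝ) - Nat.sqrt m < β) := by
  have hq0 : (0 : ℝ) < q := by exact_mod_cast hq
  set n := Nat.sqrt m with hn
  have h1 : (n : ℝ) ≤ √(m : ℝ) := by
    apply Real.le_sqrt_of_sq_le
    exact_mod_cast (Nat.sqrt_le' m)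
  have h2 : √(m : ℝ) < n + 1 := by
    rw [Real.sqrt_lt' (by positivity)]
    have := Nat.lt_succ_sqrt' m
    rw [Nat.succ_eq_add_one] at this
    exact_mod_cast this
  set f := √(m : ℝ) - n with hf
  have hf0 : 0 ≤ f := by rw [hf]; linarith
  have hf1 : f < 1 := by rw [hf]; linarith
  have hr : (n % q : ℕ) + 1 ≤ q := Nat.mod_lt _ (by omega)
  have hrr : ((n % q : ℕ) : ℝ) + 1 ≤ q := by exact_mod_cast hr
  have hr0 : (0 : ℝ) ≤ ((n % q : ℕ) : ℝ) := Nat.cast_nonneg _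
  have hfr : Int.fract (√(m : ℝ) / q) = (((n % q : ℕ) : ℝ) + f) / q := by
    rw [Int.fract_eq_iff]
    refine ⟨by positivity, by rw [div_lt_one hq0]; linarith, ((n / q : ℕ) : ℤ), ?_⟩
    have h3 : ((n % q : ℕ) : ℝ) + q * ((n / q : ℕ) : ℝ) = n := by exact_mod_cast Nat.mod_add_div n q
    rw [← sub_div, div_eq_iff hq0.ne', Int.cast_natCast, hf]
    linarith
  rw [hfr, div_le_div_iff_of_pos_right hq0, div_lt_div_iff_of_pos_right hq0]
  constructor
  · rintro ⟨h3, h4⟩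
    have h5 : a = n % q := by
      apply le_antisymm
      · have : (a : ℝ) < ((n % q : ℕ) : ℝ) + 1 := by linarith
        have h6 : a < n % q + 1 := by exact_mod_cast this
        omega
      · have : ((n % q : ℕ) : ℝ) < (a : ℝ) + 1 := by linarith
        have h6 : n % q < a + 1 := by exact_mod_cast this
        omega
    subst h5
    exact ⟨rfl, by linarith, by linarith⟩
  · rintro ⟨rfl, h3, h4⟩
    constructor <;> linarith

end Pool.Agent.K7.H67.SQ
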