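import Mathlib
import Pool.Agent.K7.H67.SQ.Eq
import Pool.Agent.H442R2.KF.Bv
import Pool.Agent.H500R2.Brun2
import Pool.Agent.H373R2.T7.LamZ

/-! Primes `m` with prescribed classes of the pair `(⌊√m⌋, m)`. -/

set_option autoImplicit false

namespace Pool.Agent.K7.H67.SQ

open Finset
open Pool.Agent.H425R3.JL (PR)
open Pool.Agent.H442R2.KF (Er piN piAP)
open Pool.Agent.H373R2.T7 (pz mem_pz)

/-- the sum of the two numbers -/
def F (n : ℕ) : ℕ := 2 * n ^ 2 + 2 * n + 2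

/-- the condition at the prime `p` for `(a, b)`, `a = ⌊√m⌋`, `b = m` -/
def tt (z0 p a b : ℕ) : Prop :=
  if p ≤ z0 then a % p = 0 ∧ b % p = 1 % p else ¬ p ∣ b ∧ F a % p = b % p

lemma F_mod (p a : ℕ) : F (a % p) % p = F a % p := by
  have h : a % p ≡ a [MOD p] := Nat.mod_modEq a p
  have h1 : F (a % p) ≡ F a [MOD p] := by
    unfold F
    exact Nat.ModEq.add_right _ (Nat.ModEq.add (Nat.ModEq.mul_left _ (h.pow 2)) (Nat.ModEq.mul_left _ h))
  exact h1

lemma tt_per (z0 p a b : ℕ) : tt z0 p (a % p) (b % p) ↔ tt z0 p a b := by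
  unfold tt
  split_ifs with h
  · rw [Nat.mod_mod, Nat.mod_mod]
  · rw [Nat.mod_mod, F_mod, Nat.dvd_mod_iff (dvd_refl p)]

lemma tt_mod {z0 p q a b : ℕ} (h : p ∣ q) : tt z0 p (a % q) (b % q) ↔ tt z0 p a b := by
  rw [← tt_per z0 p (a % q) (b % q), Nat.mod_mod_of_dvd _ h, Nat.mod_mod_of_dvd _ h, tt_per]

/-- the number of the admissible classes of `a` -/
def rr (p : ℕ) : ℕ := ((range p).filter (fun a => ¬ p ∣ F a)).card

lemma rr_le (p : ℕ) : rr p ≤ p := by
  unfold rr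
  exact (card_filter_le _ _).trans (by simp)

open Classical in
/-- the indicator -/
noncomputable def ti (z0 p a b : ℕ) : ℝ := if tt z0 p a b then 1 else 0

lemma ti_per (z0 p a b : ℕ) : ti z0 p (a % p) (b % p) = ti z0 p a b := by
  classical
  unfold ti
  simp only [tt_per]

lemma ti_sum {z0 p : ℕ} (hp : p.Prime) :
    ∑ a ∈ range p, ∑ b ∈ range p, ti z0 p a b = if p ≤ z0 then 1 else (rr p : ℝ) := by
  classical
  split_ifs with h
  · have h1 : ∀ a ∈ range p, ∑ b ∈ range p, ti z0 p a b = if a = 0 then 1 else 0 := by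
      intro a ha
      rw [mem_range] at ha
      have h2 : ∀ b ∈ range p, ti z0 p a b = if b = 1 then (if a = 0 then 1 else 0) else 0 := by
        intro b hb
        rw [mem_range] at hb
        unfold ti tt
        rw [if_pos h, Nat.mod_eq_of_lt ha, Nat.mod_eq_of_lt hb, Nat.mod_eq_of_lt hp.one_lt]
        by_cases ha0 : a = 0 <;> by_cases hb0 : b = 1 <;> simp [ha0, hb0]
      rw [sum_congr rfl h2, sum_ite_eq', if_pos (mem_range.2 hp.one_lt)]
    rw [sum_congr rfl h1, sum_ite_eq', if_pos (mem_range.2 hp.pos)]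
  · have h1 : ∀ a ∈ range p, ∑ b ∈ range p, ti z0 p a b = if ¬ p ∣ F a then 1 else 0 := by
      intro a ha
      have h2 : ∀ b ∈ range p, ti z0 p a b = if b = F a % p then (if ¬ p ∣ F a then 1 else 0) else 0 := by
        intro b hb
        rw [mem_range] at hb
        unfold ti tt
        rw [if_neg h, Nat.mod_eq_of_lt hb]
        by_cases hb0 : b = F a % p
        · rw [if_pos hb0]
          have h5 : p ∣ F a % p ↔ p ∣ F a := Nat.dvd_mod_iff (dvd_refl p)
          simp only [hb0, h5, and_true]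
        · rw [if_neg hb0, if_neg]
          rintro ⟨_, h3⟩
          exact hb0 h3.symm
      rw [sum_congr rfl h2, sum_ite_eq', if_pos (mem_range.2 (Nat.mod_lt _ hp.pos))]
    rw [sum_congr rfl h1]
    unfold rr
    rw [card_filter]
    push_cast
    rfl

/-- the modulus -/
def md (J : Finset ℕ) : ℕ := ∏ p ∈ J, p

open Classical in
/-- the admissible pairs of classes -/
noncomputable def RT (z0 : ℕ) (J : Finset ℕ) : Finset (ℕ × ℕ) :=
  (range (md J) ×ˢ range (md J)).filter (fun x => ∀ p ∈ J, tt z0 p x.1 x.2)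

lemma card_RT (z0 : ℕ) (T : Finset ℕ) (hT : ∀ p ∈ T, p.Prime ∧ z0 < p) :
    ((RT z0 (pz z0 ∪ T)).card : ℝ) = ∏ p ∈ T, (rr p : ℝ) := by
  classical
  have hJ : ∀ p ∈ pz z0 ∪ T, p.Prime := by
    intro p hp
    rcases mem_union.1 hp with h | h
    · exact (mem_pz.1 h).2
    · exact (hT p h).1
  have hdisj : Disjoint (pz z0) T := by
    rw [disjoint_left]
    intro p hp hp'
    have h1 := (mem_pz.1 hp).1
    have h2 := (hT p hp').2
    omega
  have h := Pool.Agent.H500R2.crt_prod (fun p a b => ti z0 p a b) (fun p m n => ti_per z0 p m n)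
    (fun p => (if p ≤ z0 then 1 else (rr p : ℝ)) / (p : ℝ) ^ 2) (pz z0 ∪ T) hJ (by
      intro p hp
      have hp0 : (p : ℝ) ≠ 0 := by exact_mod_cast (hJ p hp).ne_zero
      rw [ti_sum (hJ p hp)]
      field_simp)
  have h1 : ((RT z0 (pz z0 ∪ T)).card : ℝ) = ∑ a ∈ range (∏ p ∈ pz z0 ∪ T, p),
      ∑ b ∈ range (∏ p ∈ pz z0 ∪ T, p), ∏ p ∈ pz z0 ∪ T, ti z0 p a b := by
    unfold RT
    rw [card_filter]
    push_cast
    rw [sum_product]
    refine sum_congr rfl fun a _ => sum_congr rfl fun b _ => ?_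
    unfold ti
    rw [prod_ite_zero]
    simp
  rw [h1, h, prod_union hdisj, prod_union hdisj]
  have e1 : ∏ p ∈ pz z0, ((if p ≤ z0 then 1 else (rr p : ℝ)) / (p : ℝ) ^ 2) = ∏ p ∈ pz z0, (1 / (p : ℝ) ^ 2) := by
    refine prod_congr rfl fun p hp => ?_
    rw [if_pos (mem_pz.1 hp).1]
  have e2 : ∏ p ∈ T, ((if p ≤ z0 then 1 else (rr p : ℝ)) / (p : ℝ) ^ 2) = ∏ p ∈ T, ((rr p : ℝ) / (p : ℝ) ^ 2) := by
    refine prod_congr rfl fun p hp => ?_
    rw [if_neg (by have := (hT p hp).2; omega)]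
  rw [e1, e2]
  push_cast
  rw [mul_pow, ← prod_pow, ← prod_pow]
  have e3 : (∏ p ∈ pz z0, (p : ℝ) ^ 2) * ∏ p ∈ pz z0, (1 / (p : ℝ) ^ 2) = 1 := by
    rw [← prod_mul_distrib]
    apply prod_eq_one
    intro p hp
    have hp0 : (p : ℝ) ≠ 0 := by exact_mod_cast (mem_pz.1 hp).2.ne_zero
    field_simp
  have e4 : (∏ p ∈ T, (p : ℝ) ^ 2) * ∏ p ∈ T, ((rr p : ℝ) / (p : ℝ) ^ 2) = ∏ p ∈ T, (rr p : ℝ) := by
    rw [← prod_mul_distrib]
    refine prod_congr rfl fun p hp => ?_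
    have hp0 : (p : ℝ) ≠ 0 := by exact_mod_cast (hT p hp).1.ne_zero
    field_simp
  calc (∏ p ∈ pz z0, (p : ℝ) ^ 2) * (∏ p ∈ T, (p : ℝ) ^ 2) *
        ((∏ p ∈ pz z0, (1 / (p : ℝ) ^ 2)) * ∏ p ∈ T, ((rr p : ℝ) / (p : ℝ) ^ 2)) =
      ((∏ p ∈ pz z0, (p : ℝ) ^ 2) * ∏ p ∈ pz z0, (1 / (p : ℝ) ^ 2)) *
        ((∏ p ∈ T, (p : ℝ) ^ 2) * ∏ p ∈ T, ((rr p : ℝ) / (p : ℝ) ^ 2)) := by ring
    _ = _ := by rw [e3, e4, one_mul]

lemma totient_md (J : Finset ℕ) (hJ : ∀ p ∈ J, p.Prime) :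
    (Nat.totient (md J) : ℝ) = ∏ p ∈ J, ((p : ℝ) - 1) := by
  classical
  unfold md
  induction J using Finset.induction_on with
  | empty => simp
  | insert p J hp ih =>
    have ihJ := ih (fun q hq => hJ q (mem_insert_of_mem hq))
    have hpp : p.Prime := hJ p (mem_insert_self _ _)
    have hcop : Nat.Coprime p (∏ q ∈ J, q) := by
      apply Nat.Coprime.prod_right
      intro q hq
      exact (Nat.coprime_primes hpp (hJ q (mem_insert_of_mem hq))).2 (fun h => hp (h ▸ hq))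
    rw [prod_insert hp, prod_insert hp, Nat.totient_mul hcop, Nat.totient_prime hpp]
    push_cast
    rw [ihJ, Nat.cast_sub hpp.one_le]
    push_cast
    ring

lemma exists_bq (N q : ℕ) (hq : 1 ≤ q) : ∃ b : ℕ, b.Coprime q ∧
    ∀ b' < q, b'.Coprime q → |Er N q b'| ≤ |Er N q b| := by
  classical
  have hne : ((range q).filter (fun b => b.Coprime q)).Nonempty := by
    rcases Nat.lt_or_ge 1 q with h | h
    · exact ⟨1, mem_filter.2 ⟨mem_range.2 h, Nat.coprime_one_left q⟩⟩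
    · have : q = 1 := by omega
      subst this
      exact ⟨0, mem_filter.2 ⟨mem_range.2 (by omega), Nat.coprime_one_right 0⟩⟩
  obtain ⟨b, hb, h⟩ := exists_max_image _ (fun b => |Er N q b|) hne
  refine ⟨b, (mem_filter.1 hb).2, fun b' h1 h2 => h b' (mem_filter.2 ⟨mem_range.2 h1, h2⟩)⟩

open Classical in
/-- the worst class -/
noncomputable def bq (N q : ℕ) : ℕ := if h : 1 ≤ q then Classical.choose (exists_bq N q h) else 1

lemma bq_cop (N q : ℕ) (hq : 1 ≤ q) : (bq N q).Coprime q := by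
  unfold bq
  rw [dif_pos hq]
  exact (Classical.choose_spec (exists_bq N q hq)).1

lemma bq_max (N q : ℕ) (hq : 1 ≤ q) (b' : ℕ) (h1 : b' < q) (h2 : b'.Coprime q) :
    |Er N q b'| ≤ |Er N q (bq N q)| := by
  unfold bq
  rw [dif_pos hq]
  exact (Classical.choose_spec (exists_bq N q hq)).2 b' h1 h2

lemma card_class (N q b : ℕ) (hb : b < q) :
    (((PR N).filter (fun p => p % q = b)).card : ℝ) = piN N / Nat.totient q + Er N q b := by
  unfold Er
  have h1 : (PR N).filter (fun p => p % q = b) =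
      (Icc 1 N).filter (fun p : ℕ => p.Prime ∧ p ≡ b [MOD q]) := by
    unfold PR
    rw [filter_filter]
    apply filter_congr
    intro p _
    unfold Nat.ModEq
    rw [Nat.mod_eq_of_lt hb]
  rw [h1]
  unfold piAP
  ring

open Classical in
/-- the set counted -/
noncomputable def Cset (z0 : ℕ) (J : Finset ℕ) (N : ℕ) (α β : ℝ) : Finset ℕ :=
  (PR N).filter (fun m : ℕ => (∀ p ∈ J, tt z0 p (Nat.sqrt m) m) ∧
    α ≤ √(m : ℝ) - Nat.sqrt m ∧ √(m : ℝ) - Nat.sqrt m < β)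

theorem pair_count : ∃ C : ℝ, 0 < C ∧ ∀ N : ℕ, 9 ≤ N → ∀ z0 : ℕ, ∀ T : Finset ℕ,
    (∀ p ∈ T, p.Prime ∧ z0 < p) → (md (pz z0 ∪ T) : ℝ) ≤ (N : ℝ) ^ (1 / 32 : ℝ) →
    ∀ α β : ℝ, 0 ≤ α → α ≤ β → β ≤ 1 →
    |((Cset z0 (pz z0 ∪ T) N α β).card : ℝ) -
      (β - α) * piN N * (∏ p ∈ pz z0, 1 / ((p : ℝ) * (p - 1))) *
        ∏ p ∈ T, ((rr p : ℝ) / ((p : ℝ) * (p - 1)))| ≤
      (β - α) * |Er N (md (pz z0 ∪ T)) (bq N (md (pz z0 ∪ T)))| +
        (md (pz z0 ∪ T) : ℝ) * (C * (N : ℝ) ^ (511 / 512 : ℝ)) := by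
  classical
  obtain ⟨C, hC, H⟩ := class_count
  refine ⟨C, hC, fun N hN z0 T hT hqN α β hα hαβ hβ => ?_⟩
  have hJ : ∀ p ∈ pz z0 ∪ T, p.Prime := by
    intro p hp
    rcases mem_union.1 hp with h | h
    · exact (mem_pz.1 h).2
    · exact (hT p h).1
  have hdisj : Disjoint (pz z0) T := by
    rw [disjoint_left]
    intro p hp hp'
    have h1 := (mem_pz.1 hp).1
    have h2 := (hT p hp').2
    omega
  set q := md (pz z0 ∪ T) with hq
  have hq1 : 1 ≤ q := Nat.pos_of_ne_zero (prod_ne_zero_iff.2 fun p hp => (hJ p hp).ne_zero)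
  have hq0 : (0 : ℝ) < q := by exact_mod_cast hq1
  have hdvd : ∀ p ∈ pz z0 ∪ T, p ∣ q := fun p hp => dvd_prod_of_mem _ hp
  set R := RT z0 (pz z0 ∪ T) with hR
  have hmemR : ∀ x : ℕ × ℕ, x ∈ R ↔ (x.1 < q ∧ x.2 < q) ∧ ∀ p ∈ pz z0 ∪ T, tt z0 p x.1 x.2 := by
    intro x
    rw [hR]
    unfold RT
    rw [mem_filter, mem_product, mem_range, mem_range]
  -- coprimality
  have hcop : ∀ x ∈ R, x.2.Coprime q := by
    intro x hx
    rw [hmemR] at hx
    rw [hq]
    unfold md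
    apply Nat.Coprime.prod_right
    intro p hp
    have hpp := hJ p hp
    rw [Nat.coprime_comm, hpp.coprime_iff_not_dvd]
    have h1 := hx.2 p hp
    unfold tt at h1
    split_ifs at h1 with h2
    · intro h3
      have h4 := Nat.mod_eq_zero_of_dvd h3
      rw [h4, Nat.mod_eq_of_lt hpp.one_lt] at h1
      omega
    · exact h1.1
  -- decomposition
  have hdec : (Cset z0 (pz z0 ∪ T) N α β).card = ∑ x ∈ R,
      (((PR N).filter (fun p => p % q = x.2)).filter (fun p : ℕ =>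
        ((x.1 : ℝ) + α) / q ≤ Int.fract (√(p : ℝ) / q) ∧
          Int.fract (√(p : ℝ) / q) < ((x.1 : ℝ) + β) / q)).card := by
    rw [card_eq_sum_card_fiberwise (f := fun m : ℕ => (Nat.sqrt m % q, m % q)) (t := R)]
    · refine sum_congr rfl fun x hx => ?_
      congr 1
      ext m
      unfold Cset
      rw [mem_filter, mem_filter, mem_filter, mem_filter, sqrt_cond hq1 hα hβ]
      constructor
      · rintro ⟨⟨h1, h2, h3, h4⟩, h5⟩
        rw [← h5]
        exact ⟨⟨h1, rfl⟩, rfl, h3, h4⟩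
      · rintro ⟨⟨h1, h2⟩, h3, h4, h5⟩
        refine ⟨⟨h1, ?_, h4, h5⟩, Prod.ext h3 h2⟩
        intro p hp
        have h6 := ((hmemR x).1 hx).2 p hp
        rw [← h3, ← h2, tt_mod (hdvd p hp)] at h6
        exact h6
    · intro m hm
      rw [mem_coe] at hm ⊢
      unfold Cset at hm
      rw [mem_filter] at hm
      rw [hmemR]
      refine ⟨⟨Nat.mod_lt _ (by omega), Nat.mod_lt _ (by omega)⟩, fun p hp => ?_⟩
      exact (tt_mod (hdvd p hp)).2 (hm.2.1 p hp)
  have hcardR := card_RT z0 T hT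
  rw [← hR] at hcardR
  have hRle : (R.card : ℝ) ≤ q := by
    rw [hcardR, hq]
    unfold md
    rw [prod_union hdisj]
    push_cast
    have h1 : ∏ p ∈ T, (rr p : ℝ) ≤ ∏ p ∈ T, (p : ℝ) :=
      prod_le_prod (fun _ _ => Nat.cast_nonneg _) (fun p _ => by exact_mod_cast rr_le p)
    have h2 : (1 : ℝ) ≤ ∏ p ∈ pz z0, (p : ℝ) := by
      have h4 : (1 : ℕ) ≤ ∏ p ∈ pz z0, p := Nat.pos_of_ne_zero (prod_ne_zero_iff.2 fun p hp => (mem_pz.1 hp).2.ne_zero)
      have h5 := (Nat.cast_le (α := ℝ)).2 h4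
      push_cast at h5
      exact h5
    have h3 : (0 : ℝ) ≤ ∏ p ∈ T, (p : ℝ) := prod_nonneg fun _ _ => Nat.cast_nonneg _
    nlinarith
  -- the main term
  have hφ := totient_md (pz z0 ∪ T) hJ
  rw [← hq] at hφ
  have hφ0 : (0 : ℝ) < Nat.totient q := by exact_mod_cast Nat.totient_pos.2 hq1
  have hmain : (β - α) * piN N * (∏ p ∈ pz z0, 1 / ((p : ℝ) * (p - 1))) *
        ∏ p ∈ T, ((rr p : ℝ) / ((p : ℝ) * (p - 1))) =
      ∑ x ∈ R, (β - α) / q * (piN N / Nat.totient q) := by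
    rw [sum_const, nsmul_eq_mul, hcardR]
    have e1 : (∏ p ∈ pz z0, 1 / ((p : ℝ) * (p - 1))) * ∏ p ∈ T, ((rr p : ℝ) / ((p : ℝ) * (p - 1))) =
        (∏ p ∈ T, (rr p : ℝ)) / (q * Nat.totient q) := by
      have e2 : (q : ℝ) = ∏ p ∈ pz z0 ∪ T, (p : ℝ) := by rw [hq]; unfold md; push_cast; rfl
      rw [hφ, e2, ← prod_mul_distrib, prod_union hdisj, prod_div_distrib, prod_div_distrib]
      simp only [prod_const_one]
      rw [div_mul_div_comm, one_mul]
    rw [mul_assoc ((β - α) * (piN N : ℝ)), e1]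
    field_simp
  rw [hdec, hmain]
  push_cast
  rw [← sum_sub_distrib]
  calc |∑ x ∈ R, ((((((PR N).filter (fun p => p % q = x.2)).filter (fun p : ℕ =>
        ((x.1 : ℝ) + α) / q ≤ Int.fract (√(p : ℝ) / q) ∧
          Int.fract (√(p : ℝ) / q) < ((x.1 : ℝ) + β) / q)).card : ℕ) : ℝ) -
            (β - α) / q * (piN N / Nat.totient q))|
      ≤ ∑ x ∈ R, ((β - α) / q * |Er N q (bq N q)| + C * (N : ℝ) ^ (511 / 512 : ℝ)) := by
        refine (abs_sum_le_sum_abs _ _).trans (sum_le_sum fun x hx => ?_)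
        have hx1 := ((hmemR x).1 hx).1
        have h1 := H N hN q hq1 hqN x.2 hx1.2 (((x.1 : ℝ) + α) / q) (((x.1 : ℝ) + β) / q)
          (by positivity) (by gcongr) (by
            rw [div_le_one hq0]
            have : (x.1 : ℝ) + 1 ≤ q := by exact_mod_cast hx1.1
            linarith)
        have h2 : ((x.1 : ℝ) + β) / q - ((x.1 : ℝ) + α) / q = (β - α) / q := by ring
        rw [h2, card_class N q x.2 hx1.2] at h1
        have h3 := bq_max N q hq1 x.2 hx1.2 (hcop x hx)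
        have h4 : 0 ≤ (β - α) / q := div_nonneg (by linarith) hq0.le
        have h5 : |(β - α) / q * Er N q x.2| ≤ (β - α) / q * |Er N q (bq N q)| := by
          rw [abs_mul, abs_of_nonneg h4]
          exact mul_le_mul_of_nonneg_left h3 h4
        rw [abs_le] at h1 h5 ⊢
        constructor
        · nlinarith [h1.1, h5.1]
        · nlinarith [h1.2, h5.2]
    _ = R.card * ((β - α) / q * |Er N q (bq N q)| + C * (N : ℝ) ^ (511 / 512 : ℝ)) := by
        rw [sum_const, nsmul_eq_mul]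
    _ ≤ q * ((β - α) / q * |Er N q (bq N q)| + C * (N : ℝ) ^ (511 / 512 : ℝ)) := by
        apply mul_le_mul_of_nonneg_right hRle
        have h4 : 0 ≤ (β - α) / q := div_nonneg (by linarith) hq0.le
        positivity
    _ = _ := by
        rw [mul_add]
        congr 1
        field_simp

end Pool.Agent.K7.H67.SQ
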