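import Mathlib
import Pool.Agent.K7.H67.SQ.Loc

/-! Products over primes. -/

set_option autoImplicit false

namespace Pool.Agent.K7.H67.SQ

open Finset
open Pool.Agent.H373R2.T7 (pz mem_pz Vz nuB nuB_le)

lemma tele (y : ℕ) : (1 / 2 : ℝ) ≤ ∏ n ∈ Icc 3 y, (1 - 1 / ((n : ℝ) - 1) ^ 2) := by
  rcases Nat.lt_or_ge y 2 with h | h
  · rw [Icc_eq_empty (by omega), prod_empty]; norm_num
  have key : ∀ m : ℕ, ∏ n ∈ Icc 3 (m + 2), (1 - 1 / ((n : ℝ) - 1) ^ 2) =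
      ((m : ℝ) + 2) / (2 * ((m : ℝ) + 1)) := by
    intro m
    induction m with
    | zero => simp
    | succ m ih =>
      rw [show m + 1 + 2 = (m + 2) + 1 by ring, prod_Icc_succ_top (by omega), ih]
      push_cast
      have h1 : (m : ℝ) + 1 ≠ 0 := by positivity
      have h2 : (m : ℝ) + 2 ≠ 0 := by positivity
      have h3 : (m : ℝ) + 2 + 1 - 1 ≠ 0 := by
        have : (0 : ℝ) ≤ m := Nat.cast_nonneg m
        intro h; linarith
      field_simp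
      ring
  obtain ⟨m, rfl⟩ := Nat.exists_eq_add_of_le h
  rw [add_comm 2 m, key m, div_le_div_iff₀ (by norm_num) (by positivity)]
  linarith

lemma tele_primes (S : Finset ℕ) (hS : ∀ p ∈ S, 3 ≤ p) :
    (1 / 2 : ℝ) ≤ ∏ p ∈ S, (1 - 1 / ((p : ℝ) - 1) ^ 2) := by
  classical
  obtain ⟨y, hy⟩ : ∃ y, S ⊆ Icc 3 y := by
    refine ⟨S.sup id, fun p hp => ?_⟩
    rw [mem_Icc]
    exact ⟨hS p hp, Finset.le_sup (f := id) hp⟩
  refine (tele y).trans ?_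
  have hf : ∀ n ∈ Icc 3 y, 0 ≤ 1 - 1 / ((n : ℝ) - 1) ^ 2 ∧ 1 - 1 / ((n : ℝ) - 1) ^ 2 ≤ 1 := by
    intro n hn
    have h3 : (3 : ℝ) ≤ n := by exact_mod_cast (mem_Icc.1 hn).1
    have h4 : (1 : ℝ) ≤ ((n : ℝ) - 1) ^ 2 := by nlinarith
    have h5 : 1 / ((n : ℝ) - 1) ^ 2 ≤ 1 := by
      rw [div_le_one (by linarith)]; exact h4
    have h6 : 0 ≤ 1 / ((n : ℝ) - 1) ^ 2 := by positivity
    constructor <;> linarith
  rw [← prod_sdiff hy]
  have h1 : ∏ n ∈ Icc 3 y \ S, (1 - 1 / ((n : ℝ) - 1) ^ 2) ≤ 1 :=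
    prod_le_one (fun n hn => (hf n (mem_sdiff.1 hn).1).1) (fun n hn => (hf n (mem_sdiff.1 hn).1).2)
  have h2 : 0 ≤ ∏ n ∈ S, (1 - 1 / ((n : ℝ) - 1) ^ 2) := prod_nonneg fun n hn => (hf n (hy hn)).1
  nlinarith

lemma pz_two_le {y p : ℕ} (h : p ∈ pz y) : (2 : ℝ) ≤ p := by exact_mod_cast (mem_pz.1 h).2.two_le

lemma prod_low (y : ℕ) (ν : ℕ → ℕ) (h2 : ν 2 ≤ 1) (hν : ∀ p, p.Prime → ν p ≤ 2) :
    (1 / 2 : ℝ) * Vz y ^ 2 ≤ ∏ p ∈ pz y, (1 - (ν p : ℝ) / p) := by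
  classical
  unfold Vz
  rw [← prod_pow]
  have h1 : (1 / 2 : ℝ) * ∏ p ∈ pz y, (1 - 1 / (p : ℝ)) ^ 2 ≤
      (∏ p ∈ (pz y).filter (fun p => 3 ≤ p), (1 - 1 / ((p : ℝ) - 1) ^ 2)) *
        ∏ p ∈ pz y, (1 - 1 / (p : ℝ)) ^ 2 :=
    mul_le_mul_of_nonneg_right (tele_primes _ fun p hp => (mem_filter.1 hp).2)
      (prod_nonneg fun p _ => sq_nonneg _)
  refine h1.trans ?_
  rw [prod_filter, ← prod_mul_distrib]
  apply prod_le_prod
  · intro p hp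
    have hp2 := pz_two_le hp
    split_ifs with h3
    · have h3' : (3 : ℝ) ≤ p := by exact_mod_cast h3
      have h4 : (1 : ℝ) ≤ ((p : ℝ) - 1) ^ 2 := by nlinarith
      have h5 : 1 / ((p : ℝ) - 1) ^ 2 ≤ 1 := by
        rw [div_le_one (by linarith)]; exact h4
      have : 0 ≤ 1 - 1 / ((p : ℝ) - 1) ^ 2 := by linarith
      positivity
    · positivity
  · intro p hp
    have hp2 := pz_two_le hp
    have hp0 : (0 : ℝ) < p := by linarith
    split_ifs with h3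
    · have h3' : (3 : ℝ) ≤ p := by exact_mod_cast h3
      have e : (1 - 1 / ((p : ℝ) - 1) ^ 2) * (1 - 1 / (p : ℝ)) ^ 2 = 1 - 2 / (p : ℝ) := by
        have : (p : ℝ) - 1 ≠ 0 := by intro h; linarith
        field_simp
        ring
      rw [e]
      have h6 : (ν p : ℝ) ≤ 2 := by exact_mod_cast hν p (mem_pz.1 hp).2
      have : (ν p : ℝ) / p ≤ 2 / p := div_le_div_of_nonneg_right h6 hp0.le
      linarith
    · have hp' : p = 2 := by
        have := (mem_pz.1 hp).2.two_le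
        omega
      subst hp'
      have h6 : (ν 2 : ℝ) ≤ 1 := by exact_mod_cast h2
      push_cast
      norm_num
      linarith

lemma prod_up (y : ℕ) (N u : ℕ) :
    ∏ p ∈ pz y, (1 - (nuB (Q N u) p : ℝ) / p) ≤
      Vz y ^ 2 * ∏ p ∈ (pz y).filter (fun p => p ∣ 2 * fN N), (1 + 2 / (p : ℝ)) := by
  classical
  unfold Vz
  rw [← prod_pow, prod_filter, ← prod_mul_distrib]
  apply prod_le_prod
  · intro p hp
    have hp0 : (0 : ℝ) < p := by have := pz_two_le hp; linarith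
    have h1 : (nuB (Q N u) p : ℝ) / p ≤ 1 := by
      rw [div_le_one hp0]; exact_mod_cast nuB_le (Q N u) p
    linarith
  · intro p hp
    have hp2 := pz_two_le hp
    have hp0 : (0 : ℝ) < p := by linarith
    split_ifs with h3
    · have h4 : (1 : ℝ) ≤ nuB (Q N u) p := by exact_mod_cast nu_pos N u p (mem_pz.1 hp).2
      have h5 : 1 / (p : ℝ) ≤ (nuB (Q N u) p : ℝ) / p := div_le_div_of_nonneg_right h4 hp0.le
      have h6 : 0 < 1 / (p : ℝ) := by positivity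
      have h7 : 1 / (p : ℝ) ≤ 1 / 2 := one_div_le_one_div_of_le (by norm_num) hp2
      have e : 2 / (p : ℝ) = 2 * (1 / p) := by ring
      rw [e]
      set t := 1 / (p : ℝ)
      nlinarith [mul_nonneg h6.le (sub_nonneg.2 h7), sq_nonneg t]
    · rw [nu_two N u p (mem_pz.1 hp).2 h3, mul_one]
      have e : (1 - 1 / (p : ℝ)) ^ 2 = 1 - ((2 : ℕ) : ℝ) / p + (1 / p) ^ 2 := by push_cast; ring
      rw [e]
      have : 0 ≤ (1 / (p : ℝ)) ^ 2 := sq_nonneg _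
      linarith

/-- the sifting limit -/
def yJ (J : ℕ) : ℕ := 2 ^ 2 ^ J - 1

lemma pz_yJ (J : ℕ) : pz (yJ J) = (range (2 ^ 2 ^ J)).filter Nat.Prime := by
  ext p
  unfold yJ
  have h2 : 0 < 2 ^ 2 ^ J := by positivity
  rw [mem_pz, mem_filter, mem_range]
  constructor
  · rintro ⟨h, hp⟩
    exact ⟨by omega, hp⟩
  · rintro ⟨h, hp⟩
    exact ⟨by omega, hp⟩

lemma V_bounds : ∃ c C : ℝ, 0 < c ∧ 0 < C ∧ ∀ J : ℕ, c / 2 ^ J ≤ Vz (yJ J) ∧ Vz (yJ J) ≤ C / 2 ^ J := by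
  obtain ⟨c, C, hc, hC, h⟩ := Pool.Agent.Helper112.LP.mertens_prod
  refine ⟨c, C, hc, hC, fun J => ?_⟩
  unfold Vz
  rw [pz_yJ]
  exact h J

lemma Vz_nonneg (y : ℕ) : 0 ≤ Vz y := by
  unfold Vz
  apply prod_nonneg
  intro p hp
  have := pz_two_le hp
  have h7 : 1 / (p : ℝ) ≤ 1 / 2 := one_div_le_one_div_of_le (by norm_num) this
  linarith

end Pool.Agent.K7.H67.SQ
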