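import Mathlib
import Pool.Agent.K7.H67.SQ.Cnt
import Pool.Agent.K7.H67.SQ.Prd
import Pool.Agent.H20R2.EN.FLem
import Pool.Agent.H373R2.T7.FundB

/-! The lower bound: primes `m` for which the reflection of `m` in the interval between the
consecutive squares around `m` has no small prime factor. -/

set_option autoImplicit false

namespace Pool.Agent.K7.H67.SQ

open Finset Filter
open Pool.Agent.H425R3.JL (PR)
open Pool.Agent.H442R2.KF (Er piN piAP)
open Pool.Agent.H373R2.T7 (pz mem_pz Vz sum_inj_le)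

/-- `ℓ` divides the reflection of `m`, but not `m` -/
def hit (ℓ m : ℕ) : Prop := ¬ ℓ ∣ m ∧ F (Nat.sqrt m) % ℓ = m % ℓ

/-- Chebyshev's lower bound -/
lemma cheb : ∃ N0 : ℕ, ∀ N : ℕ, N0 ≤ N → (N : ℝ) / (2 * Real.log N) ≤ piN N := by
  have h1 : Tendsto (fun N : ℕ => Real.log ((N : ℝ) + 1) / (N : ℝ)) atTop (nhds 0) := by
    have h2 := Real.isLittleO_log_id_atTop.tendsto_div_nhds_zero
    have h3 : Tendsto (fun N : ℕ => (N : ℝ) + 1) atTop atTop :=
      tendsto_atTop_add_const_right _ _ tendsto_natCast_atTop_atTop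
    have h4 := h2.comp h3
    have h5 : Tendsto (fun N : ℕ => ((N : ℝ) + 1) / N) atTop (nhds 1) := by
      have : Tendsto (fun N : ℕ => 1 + 1 / (N : ℝ)) atTop (nhds (1 + 0)) :=
        tendsto_const_nhds.add (tendsto_one_div_atTop_nhds_zero_nat)
      rw [add_zero] at this
      refine this.congr' ?_
      filter_upwards [eventually_ge_atTop 1] with N hN
      have : (N : ℝ) ≠ 0 := by exact_mod_cast (by omega : N ≠ 0)
      field_simp
    have h6 := h4.mul h5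
    rw [zero_mul] at h6
    refine h6.congr' ?_
    filter_upwards [eventually_ge_atTop 1] with N hN
    have : (N : ℝ) ≠ 0 := by exact_mod_cast (by omega : N ≠ 0)
    have h7 : (N : ℝ) + 1 ≠ 0 := by positivity
    simp only [Function.comp, id]
    field_simp
  have h2 := h1.eventually (gt_mem_nhds (show (0 : ℝ) < 1 / 10 by norm_num))
  obtain ⟨N0, hN0⟩ := eventually_atTop.1 h2
  refine ⟨max N0 3, fun N hN => ?_⟩
  have hN3 : 3 ≤ N := (le_max_right _ _).trans hN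
  have h3 := hN0 N ((le_max_left _ _).trans hN)
  have hNr : (3 : ℝ) ≤ N := by exact_mod_cast hN3
  have hlog : 0 < Real.log N := Real.log_pos (by linarith)
  rw [div_lt_iff₀ (by linarith)] at h3
  have h4 := Chebyshev.psi_ge N
  have h5 := Chebyshev.psi_le_primeCounting_mul_log N
  have h6 : (Nat.primeCounting N : ℝ) = piN N := by
    unfold piN
    rw [Nat.primeCounting, Nat.primeCounting', Nat.count_eq_card_filter_range]
    congr 2
    ext p
    rw [mem_filter, mem_filter, mem_range, mem_Icc]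
    constructor
    · rintro ⟨h, hp⟩
      exact ⟨⟨hp.one_le, by omega⟩, hp⟩
    · rintro ⟨h, hp⟩
      exact ⟨by omega, hp⟩
  rw [h6] at h5
  rw [div_le_iff₀ (by positivity)]
  have h7 := Real.log_two_gt_d9
  nlinarith

lemma prod_g_low (y z0 : ℕ) (hz0 : 2 ≤ z0) :
    (1 / 2 : ℝ) * Vz y ≤ ∏ p ∈ (pz y).filter (fun p => z0 < p), (1 - (rr p : ℝ) / ((p : ℝ) * (p - 1))) := by
  classical
  set P := (pz y).filter (fun p => z0 < p) with hP
  have hmem : ∀ p ∈ P, (3 : ℝ) ≤ p := by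
    intro p hp
    have := (mem_filter.1 hp).2
    exact_mod_cast (by omega : 3 ≤ p)
  have h1 : (1 / 2 : ℝ) ≤ ∏ p ∈ P, (1 - 1 / ((p : ℝ) - 1) ^ 2) :=
    tele_primes P fun p hp => by exact_mod_cast hmem p hp
  have h2 : Vz y ≤ ∏ p ∈ P, (1 - 1 / (p : ℝ)) := by
    unfold Vz
    rw [← prod_sdiff (filter_subset (fun p => z0 < p) (pz y))]
    have h3 : ∀ p ∈ pz y, 0 ≤ 1 - 1 / (p : ℝ) ∧ 1 - 1 / (p : ℝ) ≤ 1 := by
      intro p hp
      have := pz_two_le hp
      have h7 : 1 / (p : ℝ) ≤ 1 / 2 := one_div_le_one_div_of_le (by norm_num) this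
      have h8 : 0 ≤ 1 / (p : ℝ) := by positivity
      constructor <;> linarith
    have h4 : ∏ p ∈ pz y \ P, (1 - 1 / (p : ℝ)) ≤ 1 :=
      prod_le_one (fun p hp => (h3 p (mem_sdiff.1 hp).1).1) (fun p hp => (h3 p (mem_sdiff.1 hp).1).2)
    have h5 : 0 ≤ ∏ p ∈ P, (1 - 1 / (p : ℝ)) := prod_nonneg fun p hp => (h3 p (mem_filter.1 hp).1).1
    rw [← hP]
    nlinarith
  calc (1 / 2 : ℝ) * Vz y ≤ (∏ p ∈ P, (1 - 1 / ((p : ℝ) - 1) ^ 2)) * ∏ p ∈ P, (1 - 1 / (p : ℝ)) :=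
        mul_le_mul h1 h2 (Vz_nonneg y) (by linarith)
    _ = ∏ p ∈ P, (1 - 1 / ((p : ℝ) - 1)) := by
        rw [← prod_mul_distrib]
        refine prod_congr rfl fun p hp => ?_
        have := hmem p hp
        have h3 : (p : ℝ) - 1 ≠ 0 := by intro h; linarith
        have h4 : (p : ℝ) ≠ 0 := by intro h; linarith
        field_simp
        ring
    _ ≤ _ := by
        apply Finset.prod_le_prod
        · intro p hp
          have := hmem p hp
          have : 1 / ((p : ℝ) - 1) ≤ 1 := by rw [div_le_one (by linarith)]; linarith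
          linarith
        · intro p hp
          have h3 := hmem p hp
          have h4 : (rr p : ℝ) / ((p : ℝ) * (p - 1)) ≤ 1 / ((p : ℝ) - 1) := by
            rw [div_le_div_iff₀ (by nlinarith) (by linarith)]
            have : (rr p : ℝ) ≤ p := by exact_mod_cast rr_le p
            nlinarith
          linarith

/-- the sifting parameter -/
noncomputable def JN (η : ℝ) (N : ℕ) : ℕ := Nat.log 2 (Nat.log 2 ⌊(N : ℝ) ^ η⌋₊)

lemma JN_le {η : ℝ} {N : ℕ} (h : 2 ≤ (N : ℝ) ^ η) : (2 : ℝ) ^ (2 ^ JN η N) ≤ (N : ℝ) ^ η := by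
  unfold JN
  set M := ⌊(N : ℝ) ^ η⌋₊ with hM
  have hM2 : 2 ≤ M := Nat.le_floor (by exact_mod_cast h)
  have h1 : Nat.log 2 M ≠ 0 := by
    have : 0 < Nat.log 2 M := Nat.log_pos (by norm_num) hM2
    omega
  have h2 : 2 ^ 2 ^ Nat.log 2 (Nat.log 2 M) ≤ M :=
    (Nat.pow_le_pow_right (by norm_num) (Nat.pow_log_le_self 2 h1)).trans (Nat.pow_log_le_self 2 (by omega))
  have h3 : ((2 ^ 2 ^ Nat.log 2 (Nat.log 2 M) : ℕ) : ℝ) ≤ (M : ℝ) := by exact_mod_cast h2
  push_cast at h3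
  exact h3.trans (Nat.floor_le (by linarith))

lemma JN_gt {η : ℝ} {N : ℕ} (h : 2 ≤ (N : ℝ) ^ η) : (N : ℝ) ^ η < (2 : ℝ) ^ (2 * 2 ^ JN η N) + 1 := by
  unfold JN
  set M := ⌊(N : ℝ) ^ η⌋₊ with hM
  have hM2 : 2 ≤ M := Nat.le_floor (by exact_mod_cast h)
  have h1 : M < 2 ^ (Nat.log 2 M + 1) := Nat.lt_pow_succ_log_self (by norm_num) M
  have h2 : Nat.log 2 M + 1 ≤ 2 * 2 ^ Nat.log 2 (Nat.log 2 M) := by
    have := Nat.lt_pow_succ_log_self (b := 2) (by norm_num) (Nat.log 2 M)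
    rw [pow_succ] at this
    omega
  have h3 : M < 2 ^ (2 * 2 ^ Nat.log 2 (Nat.log 2 M)) := h1.trans_le (Nat.pow_le_pow_right (by norm_num) h2)
  have h4 : (M : ℝ) ≤ ((2 ^ (2 * 2 ^ Nat.log 2 (Nat.log 2 M)) : ℕ) : ℝ) := by exact_mod_cast h3.le
  have h5 := Nat.lt_floor_add_one ((N : ℝ) ^ η)
  rw [← hM] at h5
  push_cast at h4
  linarith

lemma ev_rpow_ge (C s : ℝ) (hs : 0 < s) : ∀ᶠ N : ℕ in atTop, C ≤ (N : ℝ) ^ s :=
  ((tendsto_rpow_atTop hs).comp tendsto_natCast_atTop_atTop).eventually_ge_atTop C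

lemma ev_log_le (C : ℝ) (k : ℕ) (s : ℝ) (hs : 0 < s) :
    ∀ᶠ N : ℕ in atTop, C * Real.log N ^ k ≤ (N : ℝ) ^ s := by
  have h1 := isLittleO_log_rpow_rpow_atTop (k : ℝ) hs
  have h3 := h1.bound (show (0 : ℝ) < 1 / (|C| + 1) by positivity)
  filter_upwards [tendsto_natCast_atTop_atTop.eventually h3, eventually_ge_atTop 1] with N hX hN
  have hX1 : (1 : ℝ) ≤ N := by exact_mod_cast hN
  have hL : 0 ≤ Real.log (N : ℝ) := Real.log_nonneg hX1
  have hXs : 0 ≤ (N : ℝ) ^ s := by positivity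
  have hLk : 0 ≤ Real.log (N : ℝ) ^ k := by positivity
  rw [Real.rpow_natCast, Real.norm_eq_abs, Real.norm_eq_abs, abs_of_nonneg hLk,
    abs_of_nonneg hXs] at hX
  have h4 : C * Real.log (N : ℝ) ^ k ≤ (|C| + 1) * Real.log (N : ℝ) ^ k := by
    apply mul_le_mul_of_nonneg_right _ hLk
    have := le_abs_self C
    linarith
  refine h4.trans ?_
  have h5 : 0 < |C| + 1 := by positivity
  calc (|C| + 1) * Real.log (N : ℝ) ^ k ≤ (|C| + 1) * (1 / (|C| + 1) * (N : ℝ) ^ s) :=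
        mul_le_mul_of_nonneg_left hX h5.le
    _ = (N : ℝ) ^ s := by field_simp

lemma rpow_est {N b A : ℝ} (hN : 1 ≤ N) (hb : N ^ (-(1 / 4096) : ℝ) ≤ b)
    (hA : A ≤ N ^ (1 / 4096 : ℝ)) : A * N ^ (2047 / 2048 : ℝ) ≤ b * N := by
  have hN0 : 0 < N := by linarith
  have h1 : N ^ (1 / 4096 : ℝ) * N ^ (2047 / 2048 : ℝ) = N ^ (-(1 / 4096) : ℝ) * N := by
    nth_rewrite 4 [← Real.rpow_one N]
    rw [← Real.rpow_add hN0, ← Real.rpow_add hN0]
    norm_num
  calc A * N ^ (2047 / 2048 : ℝ) ≤ N ^ (1 / 4096 : ℝ) * N ^ (2047 / 2048 : ℝ) :=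
        mul_le_mul_of_nonneg_right hA (Real.rpow_nonneg hN0.le _)
    _ = N ^ (-(1 / 4096) : ℝ) * N := h1
    _ ≤ b * N := mul_le_mul_of_nonneg_right hb hN0.le

lemma err_est {c C1 C3 L N b t : ℝ} (hc : 0 < c) (hL : 0 < L) (hN : 0 ≤ N) (hb : 0 ≤ b)
    (hs : 4 * C1 / c * L ^ 3 * t ≤ b * N) (h3 : 4 * C3 / c ≤ L) :
    2 * L * (b * (C3 * (N / L ^ 4)) + C1 * t) ≤ c * (b * (N / L ^ 2)) := by
  have h4 : 0 ≤ b * (N / L ^ 2) := by positivity
  have e1 : 2 * L * (b * (C3 * (N / L ^ 4)) + C1 * t) =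
      (2 * C3 / L) * (b * (N / L ^ 2)) + c / 2 * ((4 * C1 / c * L ^ 3 * t) / L ^ 2) := by
    field_simp
    ring
  have h5 : 2 * C3 / L ≤ c / 2 := by
    rw [div_le_iff₀ hL]
    rw [div_le_iff₀ hc] at h3
    linarith
  have h6 : (4 * C1 / c * L ^ 3 * t) / L ^ 2 ≤ (b * N) / L ^ 2 := by
    apply div_le_div_of_nonneg_right hs
    positivity
  have h7 : c / 2 * ((4 * C1 / c * L ^ 3 * t) / L ^ 2) ≤ c / 2 * ((b * N) / L ^ 2) :=
    mul_le_mul_of_nonneg_left h6 (by positivity)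
  have h8 : (2 * C3 / L) * (b * (N / L ^ 2)) ≤ c / 2 * (b * (N / L ^ 2)) :=
    mul_le_mul_of_nonneg_right h5 h4
  have e2 : c / 2 * ((b * N) / L ^ 2) = c / 2 * (b * (N / L ^ 2)) := by ring
  rw [e1]
  linarith

open Classical in
/-- the set of the primes found -/
noncomputable def G (z0 J N : ℕ) (α β : ℝ) : Finset ℕ :=
  (Cset z0 (pz z0) N α β).filter (fun m => ∀ ℓ ∈ (pz (yJ J)).filter (fun p => z0 < p), ¬ hit ℓ m)

theorem low : ∃ (z0 : ℕ) (η c : ℝ), 0 < η ∧ η ≤ 1 / 100 ∧ 0 < c ∧ ∃ N0 : ℕ, ∀ N : ℕ, N0 ≤ N →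
    ∀ α β : ℝ, 0 ≤ α → (N : ℝ) ^ (-(1 / 4096) : ℝ) ≤ β - α → β ≤ 1 →
      c * ((β - α) * (N / Real.log N ^ 2)) ≤ ((G z0 (JN η N) N α β).card : ℝ) := by
  classical
  obtain ⟨C1, hC1, hcnt⟩ := pair_count
  obtain ⟨C0, hC0, hFL⟩ := Pool.Agent.H20R2.fLem 1
  obtain ⟨c2, C2, hc2, hC2, hV⟩ := V_bounds
  obtain ⟨C3, hC3, hbv⟩ := Pool.Agent.H442R2.KF.bv (1 / 4) (by norm_num) 4
  obtain ⟨N1, hN1⟩ := cheb
  set z0 := C0 + 2 with hz0
  set K0 : ℕ := ∏ p ∈ pz z0, p with hK0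
  have hpz0 : ∀ p ∈ pz z0, p.Prime := fun p hp => (mem_pz.1 hp).2
  have hK01 : 1 ≤ K0 := Nat.pos_of_ne_zero (prod_ne_zero_iff.2 fun p hp => (hpz0 p hp).ne_zero)
  set B : ℕ := C0 * C0 with hB
  have hB1 : 1 ≤ B := Nat.mul_pos hC0 hC0
  have hBr : (1 : ℝ) ≤ B := by exact_mod_cast hB1
  set η : ℝ := 1 / (8192 * B) with hη
  have hη0 : 0 < η := by positivity
  have hη1 : η ≤ 1 / 8192 := by
    rw [hη]
    apply one_div_le_one_div_of_le (by norm_num)
    nlinarith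
  set κ : ℝ := ∏ p ∈ pz z0, 1 / ((p : ℝ) * (p - 1)) with hκ
  have hκ0 : 0 < κ := by
    rw [hκ]
    apply prod_pos
    intro p hp
    have : (2 : ℝ) ≤ p := by exact_mod_cast (hpz0 p hp).two_le
    have : 0 < (p : ℝ) - 1 := by linarith
    positivity
  set c : ℝ := κ * c2 / 16 with hc
  have hc0 : 0 < c := by positivity
  obtain ⟨N2, hN2⟩ := eventually_atTop.1 ((ev_rpow_ge 2 η hη0).and
    ((ev_rpow_ge (K0 : ℝ) (1 / 8192) (by norm_num)).and
    ((ev_log_le (4 * C1 / c) 3 (1 / 4096) (by norm_num)).and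
    (eventually_ge_atTop 9))))
  have hlogev : ∀ᶠ N : ℕ in atTop, 4 * C3 / c + 2 ≤ Real.log (N : ℝ) :=
    (Real.tendsto_log_atTop.comp tendsto_natCast_atTop_atTop).eventually_ge_atTop _
  obtain ⟨N3, hN3⟩ := eventually_atTop.1 hlogev
  refine ⟨z0, η, c, hη0, by linarith, hc0, max (max N1 N2) N3, ?_⟩
  intro N hN α β hα hβα hβ
  obtain ⟨e1, e2, e4, e5⟩ := hN2 N ((le_max_right _ _).trans ((le_max_left _ _).trans hN))
  have e6 := hN1 N ((le_max_left _ _).trans ((le_max_left _ _).trans hN))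
  have e7 := hN3 N ((le_max_right _ _).trans hN)
  have hNr : (9 : ℝ) ≤ N := by exact_mod_cast e5
  have hN0 : (0 : ℝ) < N := by linarith
  have hNone : (1 : ℝ) ≤ N := by linarith
  set L := Real.log (N : ℝ) with hL
  have hL2 : 2 ≤ L := by
    have : 0 ≤ 4 * C3 / c := by positivity
    linarith
  have hL0 : 0 < L := by linarith
  set J := JN η N with hJ
  have hJle := JN_le e1
  rw [← hJ] at hJle
  -- size of `2 ^ J`
  have hJL : (2 : ℝ) ^ J ≤ L := by
    have h1 := Real.log_le_log (by positivity) hJle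
    rw [Real.log_pow, Real.log_rpow hN0, ← hL] at h1
    push_cast at h1
    have h2 := Real.log_two_gt_d9
    have h3 : (0 : ℝ) ≤ (2 : ℝ) ^ J := by positivity
    nlinarith
  have hJ2 : (J : ℝ) + 2 ≤ 2 * L := by
    have h1 : (J : ℝ) ≤ (2 : ℝ) ^ J := by exact_mod_cast Nat.lt_two_pow_self.le
    linarith
  set P : Finset ℕ := (pz (yJ J)).filter (fun p => z0 < p) with hP
  have hPp : ∀ p ∈ P, p.Prime ∧ z0 < p ∧ p ≤ 2 ^ 2 ^ J := by
    intro p hp
    rw [hP, mem_filter] at hp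
    refine ⟨(mem_pz.1 hp.1).2, hp.2, ?_⟩
    have := (mem_pz.1 hp.1).1
    unfold yJ at this
    omega
  have hdisj : Disjoint (pz z0) P := by
    rw [disjoint_left]
    intro p hp hp'
    have h1 := (mem_pz.1 hp).1
    have h2 := (hPp p hp').2.1
    omega
  set D : ℕ := (2 ^ 2 ^ J) ^ (C0 * C0) with hD
  have hDr : (D : ℝ) ≤ (N : ℝ) ^ (1 / 8192 : ℝ) := by
    rw [hD]
    push_cast
    calc ((2 : ℝ) ^ 2 ^ J) ^ (C0 * C0) ≤ ((N : ℝ) ^ η) ^ B := pow_le_pow_left₀ (by positivity) hJle _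
      _ = (N : ℝ) ^ (1 / 8192 : ℝ) := by
        rw [← Real.rpow_natCast, ← Real.rpow_mul hN0.le, hη]
        congr 1
        have : (B : ℝ) ≠ 0 := by positivity
        field_simp
  have hDpos : 1 ≤ D := Nat.one_le_pow _ _ (by positivity)
  have hmd : ∀ T ⊆ P, ∏ p ∈ T, p ≤ D → (md (pz z0 ∪ T) : ℝ) ≤ (N : ℝ) ^ (1 / 4096 : ℝ) := by
    intro T hT hTD
    have h1 : md (pz z0 ∪ T) = K0 * ∏ p ∈ T, p := by
      unfold md
      rw [prod_union (disjoint_of_subset_right hT hdisj)]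
    rw [h1]
    push_cast
    have h2 : ((∏ p ∈ T, p : ℕ) : ℝ) ≤ D := by exact_mod_cast hTD
    push_cast at h2
    calc (K0 : ℝ) * ∏ p ∈ T, (p : ℝ) ≤ (N : ℝ) ^ (1 / 8192 : ℝ) * (N : ℝ) ^ (1 / 8192 : ℝ) := by
          apply mul_le_mul e2 (h2.trans hDr) (prod_nonneg fun _ _ => Nat.cast_nonneg _) (by positivity)
      _ = (N : ℝ) ^ (1 / 4096 : ℝ) := by rw [← Real.rpow_add hN0]; norm_num
  have hβα0 : 0 < β - α := lt_of_lt_of_le (by positivity) hβα
  set A : ℝ := (β - α) * piN N * κ with hA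
  have hA0 : 0 ≤ A := mul_nonneg (mul_nonneg hβα0.le (Nat.cast_nonneg _)) hκ0.le
  set g : ℕ → ℝ := fun p => (rr p : ℝ) / ((p : ℝ) * (p - 1)) with hg
  set err : Finset ℕ → ℝ := fun T => (β - α) * |Er N (md (pz z0 ∪ T)) (bq N (md (pz z0 ∪ T)))| +
        (md (pz z0 ∪ T) : ℝ) * (C1 * (N : ℝ) ^ (511 / 512 : ℝ)) with herr
  have key := hFL C0 J z0 P g le_rfl (by omega) hPp (by
      intro p hp
      have h3 : (2 : ℝ) ≤ p := by exact_mod_cast (hPp p hp).1.two_le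
      have h4 : 0 < (p : ℝ) - 1 := by linarith
      have h5 : 0 < (p : ℝ) := by linarith
      refine ⟨div_nonneg (Nat.cast_nonneg _) (mul_nonneg h5.le h4.le), ?_⟩
      simp only [hg]
      rw [div_le_div_iff₀ (by positivity) h4]
      have : (rr p : ℝ) ≤ p := by exact_mod_cast rr_le p
      push_cast
      nlinarith) (Cset z0 (pz z0) N α β) (fun _ => (1 : ℝ)) hit A err (fun _ _ => zero_le_one) hA0 (by
      intro T hT hTD
      have hTp : ∀ p ∈ T, p.Prime ∧ z0 < p := fun p hp => ⟨(hPp p (hT hp)).1, (hPp p (hT hp)).2.1⟩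
      have h1 := hcnt N e5 z0 T hTp ((hmd T hT hTD).trans
        (Real.rpow_le_rpow_of_exponent_le hNone (by norm_num))) α β hα (by linarith) hβ
      have h2 : ∑ m ∈ (Cset z0 (pz z0) N α β).filter (fun m => ∀ p ∈ T, hit p m), (1 : ℝ) =
          ((Cset z0 (pz z0 ∪ T) N α β).card : ℝ) := by
        rw [sum_const, nsmul_eq_mul, mul_one]
        congr 2
        unfold Cset
        rw [filter_filter]
        apply filter_congr
        intro m _
        constructor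
        · rintro ⟨⟨h3, h4⟩, h5⟩
          refine ⟨fun p hp => ?_, h4⟩
          rcases mem_union.1 hp with h6 | h6
          · exact h3 p h6
          · have h7 := h5 p h6
            unfold tt
            rw [if_neg (by have := (hTp p h6).2; omega)]
            exact h7
        · rintro ⟨h3, h4⟩
          refine ⟨⟨fun p hp => h3 p (mem_union_left _ hp), h4⟩, fun p hp => ?_⟩
          have h7 := h3 p (mem_union_right _ hp)
          unfold tt at h7
          rw [if_neg (by have := (hTp p hp).2; omega)] at h7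
          exact h7
      rw [h2]
      exact h1)
  have hcard : ∑ m ∈ (Cset z0 (pz z0) N α β).filter (fun m => ∀ p ∈ P, ¬ hit p m), (1 : ℝ) =
      ((G z0 J N α β).card : ℝ) := by
    rw [sum_const, nsmul_eq_mul, mul_one]
    rfl
  rw [hcard] at key
  -- the main term
  have hprod := prod_g_low (yJ J) z0 (by omega)
  rw [← hP] at hprod
  have hVJ := (hV J).1
  have hpr : c2 / (2 * L) ≤ ∏ p ∈ P, (1 - g p) := by
    refine le_trans ?_ hprod
    have h1 : c2 / L ≤ c2 / 2 ^ J := div_le_div_of_nonneg_left hc2.le (by positivity) hJL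
    have h2 : c2 / (2 * L) = 1 / 2 * (c2 / L) := by ring
    rw [h2]
    linarith
  have hAL : (β - α) * (N / (2 * L)) * κ ≤ A :=
    mul_le_mul_of_nonneg_right (mul_le_mul_of_nonneg_left e6 hβα0.le) hκ0.le
  have hmain : 4 * c * ((β - α) * (N / L ^ 2)) ≤ A * ∏ p ∈ P, (1 - g p) := by
    calc 4 * c * ((β - α) * (N / L ^ 2)) = (β - α) * (N / (2 * L)) * κ * (c2 / (2 * L)) := by
          rw [hc]; field_simp; ring
      _ ≤ A * ∏ p ∈ P, (1 - g p) := by
          apply mul_le_mul hAL hpr (div_nonneg hc2.le (by linarith)) hA0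
  -- the errors
  have hsum : ∑ T ∈ P.powerset.filter (fun T : Finset ℕ => ∏ p ∈ T, p ≤ D), err T ≤
      (β - α) * (C3 * (N / L ^ 4)) + C1 * (N : ℝ) ^ (2047 / 2048 : ℝ) := by
    rw [herr, sum_add_distrib]
    apply add_le_add
    · rw [← mul_sum]
      apply mul_le_mul_of_nonneg_left _ hβα0.le
      have h1 := sum_inj_le P (pz z0) (fun p hp => (hPp p hp).1) hpz0 hdisj D
        (fun d => |Er N d (bq N d)|) (fun d => abs_nonneg _)
      refine (le_trans (le_of_eq ?_) h1).trans ?_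
      · rfl
      · have h2 : (∏ p ∈ pz z0, p) * D ≤ ⌊(N : ℝ) ^ (1 / 4 : ℝ)⌋₊ := by
          apply Nat.le_floor
          push_cast
          have h3 : ((∏ p ∈ pz z0, p : ℕ) : ℝ) ≤ (N : ℝ) ^ (1 / 8192 : ℝ) := e2
          push_cast at h3
          calc (∏ p ∈ pz z0, (p : ℝ)) * (D : ℝ) ≤ (N : ℝ) ^ (1 / 8192 : ℝ) * (N : ℝ) ^ (1 / 8192 : ℝ) :=
                mul_le_mul h3 hDr (Nat.cast_nonneg _) (by positivity)
            _ = (N : ℝ) ^ (1 / 4096 : ℝ) := by rw [← Real.rpow_add hN0]; norm_num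
            _ ≤ (N : ℝ) ^ (1 / 4 : ℝ) := Real.rpow_le_rpow_of_exponent_le hNone (by norm_num)
        refine le_trans (sum_le_sum_of_subset_of_nonneg (Icc_subset_Icc le_rfl h2)
          (fun _ _ _ => abs_nonneg _)) ?_
        refine le_trans (le_of_eq ?_) (hbv N (by omega) (fun d => if 1 ≤ d then bq N d else 1) (by
          intro d hd
          simp only [if_pos hd]
          exact bq_cop N d hd))
        refine sum_congr rfl fun d hd => ?_
        simp only [if_pos (mem_Icc.1 hd).1]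
    · calc ∑ T ∈ P.powerset.filter (fun T : Finset ℕ => ∏ p ∈ T, p ≤ D),
            (md (pz z0 ∪ T) : ℝ) * (C1 * (N : ℝ) ^ (511 / 512 : ℝ))
          ≤ ∑ T ∈ P.powerset.filter (fun T : Finset ℕ => ∏ p ∈ T, p ≤ D),
            (N : ℝ) ^ (1 / 4096 : ℝ) * (C1 * (N : ℝ) ^ (511 / 512 : ℝ)) := by
            refine sum_le_sum fun T hT => ?_
            rw [mem_filter, mem_powerset] at hT
            exact mul_le_mul_of_nonneg_right (hmd T hT.1 hT.2) (by positivity)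
        _ = ((P.powerset.filter (fun T : Finset ℕ => ∏ p ∈ T, p ≤ D)).card : ℝ) *
            ((N : ℝ) ^ (1 / 4096 : ℝ) * (C1 * (N : ℝ) ^ (511 / 512 : ℝ))) := by
            rw [sum_const, nsmul_eq_mul]
        _ ≤ (N : ℝ) ^ (1 / 4096 : ℝ) * ((N : ℝ) ^ (1 / 4096 : ℝ) * (C1 * (N : ℝ) ^ (511 / 512 : ℝ))) := by
            apply mul_le_mul_of_nonneg_right _ (by positivity)
            have h1 := sum_inj_le P (pz z0) (fun p hp => (hPp p hp).1) hpz0 hdisj D
              (fun d => (1 : ℝ)) (fun d => zero_le_one)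
            rw [sum_const, sum_const, nsmul_eq_mul, nsmul_eq_mul, mul_one, mul_one, Nat.card_Icc,
              Nat.add_sub_cancel] at h1
            refine h1.trans ?_
            push_cast
            have h3 : ((∏ p ∈ pz z0, p : ℕ) : ℝ) ≤ (N : ℝ) ^ (1 / 8192 : ℝ) := e2
            push_cast at h3
            calc (∏ p ∈ pz z0, (p : ℝ)) * (D : ℝ) ≤ (N : ℝ) ^ (1 / 8192 : ℝ) * (N : ℝ) ^ (1 / 8192 : ℝ) :=
                  mul_le_mul h3 hDr (Nat.cast_nonneg _) (by positivity)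
              _ = (N : ℝ) ^ (1 / 4096 : ℝ) := by rw [← Real.rpow_add hN0]; norm_num
        _ = C1 * ((N : ℝ) ^ (1 / 4096 : ℝ) * (N : ℝ) ^ (1 / 4096 : ℝ) * (N : ℝ) ^ (511 / 512 : ℝ)) := by ring
        _ ≤ C1 * (N : ℝ) ^ (2047 / 2048 : ℝ) := by
            apply mul_le_mul_of_nonneg_left _ hC1.le
            rw [← Real.rpow_add hN0, ← Real.rpow_add hN0]
            exact Real.rpow_le_rpow_of_exponent_le hNone (by norm_num)
  have hsum0 : 0 ≤ ∑ T ∈ P.powerset.filter (fun T : Finset ℕ => ∏ p ∈ T, p ≤ D), err T := by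
    apply sum_nonneg
    intro T _
    exact add_nonneg (mul_nonneg hβα0.le (abs_nonneg _))
      (mul_nonneg (Nat.cast_nonneg _) (mul_nonneg hC1.le (Real.rpow_nonneg hN0.le _)))
  have herrs : ((J : ℝ) + 2) * ∑ T ∈ P.powerset.filter (fun T : Finset ℕ => ∏ p ∈ T, p ≤ D), err T ≤
      c * ((β - α) * (N / L ^ 2)) := by
    calc ((J : ℝ) + 2) * ∑ T ∈ P.powerset.filter (fun T : Finset ℕ => ∏ p ∈ T, p ≤ D), err T
        ≤ (2 * L) * ((β - α) * (C3 * (N / L ^ 4)) + C1 * (N : ℝ) ^ (2047 / 2048 : ℝ)) :=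
          mul_le_mul hJ2 hsum hsum0 (by linarith)
      _ ≤ _ := err_est hc0 hL0 hN0.le hβα0.le (rpow_est hNone hβα e4) (by linarith)
  have hpow : (1 / 2 : ℝ) ^ C0 ≤ 1 / 2 := by
    calc (1 / 2 : ℝ) ^ C0 ≤ (1 / 2 : ℝ) ^ 1 := pow_le_pow_of_le_one (by norm_num) (by norm_num) hC0
      _ = 1 / 2 := pow_one _
  have hM00 : 0 ≤ 4 * c * ((β - α) * (N / L ^ 2)) :=
    mul_nonneg (by linarith) (mul_nonneg hβα0.le (div_nonneg hN0.le (sq_nonneg _)))
  have hM0 : 0 ≤ A * ∏ p ∈ P, (1 - g p) := hM00.trans hmain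
  have h1 := (abs_le.1 key).1
  have h2 : (1 / 2 : ℝ) ^ C0 * (A * ∏ p ∈ P, (1 - g p)) ≤ 1 / 2 * (A * ∏ p ∈ P, (1 - g p)) :=
    mul_le_mul_of_nonneg_right hpow hM0
  linarith

end Pool.Agent.K7.H67.SQ
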