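import Mathlib
import Pool.Agent.K7.H67.SQ.Low

/-! The upper bound for the number of the pairs for a given `N`. -/

set_option autoImplicit false

namespace Pool.Agent.K7.H67.SQ

open Finset Filter
open Pool.Agent.H425R3.JL (PR)
open Pool.Agent.H373R2.T7 (pz mem_pz Vz nuB nuB_le)

open Classical in
theorem upw : ∃ K x0 : ℕ, 1 ≤ K ∧ ∀ x y : ℕ, x0 ≤ y → y ^ K ≤ x → ∀ N u X : ℕ,
    ((((Icc 1 X).filter (fun n : ℕ => ∀ p ∈ pz y, ¬ Q N u p n)).card : ℕ) : ℝ) ≤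
      2 * X * (Vz y ^ 2 * ∏ p ∈ (pz y).filter (fun p => p ∣ 2 * fN N), (1 + 2 / (p : ℝ))) + √(x : ℝ) := by
  obtain ⟨K, x0, hK, h⟩ := Pool.Agent.H373R2.T7.sys_fund 2 (by norm_num) 1 one_pos
  refine ⟨K, x0, hK, fun x y hy hyx N u X => ?_⟩
  have h1 := (abs_le.1 (h x y hy hyx (Q N u) (perB N u) X)).2
  have h2 := prod_up y N u
  have h3 : (X : ℝ) * ∏ p ∈ pz y, (1 - (nuB (Q N u) p : ℝ) / p) ≤
      X * (Vz y ^ 2 * ∏ p ∈ (pz y).filter (fun p => p ∣ 2 * fN N), (1 + 2 / (p : ℝ))) :=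
    mul_le_mul_of_nonneg_left h2 (Nat.cast_nonneg _)
  linarith

lemma no_small {z0 J M : ℕ} {α β : ℝ} {m N : ℕ} (hm : m ∈ G z0 J M α β) (hN : Nat.sqrt m = N)
    (hJ : yJ J < m) {p : ℕ} (hp : p ∈ pz (yJ J)) : ¬ (p : ℤ) ∣ m ∧ ¬ (p : ℤ) ∣ (F N : ℤ) - m := by
  classical
  unfold G Cset at hm
  rw [mem_filter, mem_filter] at hm
  obtain ⟨⟨h1, h2, h3, h4⟩, h5⟩ := hm
  have hmp : m.Prime := by
    unfold PR at h1
    exact (mem_filter.1 h1).2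
  obtain ⟨hpy, hpp⟩ := mem_pz.1 hp
  have hpm : ¬ p ∣ m := by
    intro h
    rcases (Nat.dvd_prime hmp).1 h with h6 | h6
    · exact hpp.one_lt.ne' h6
    · omega
  refine ⟨fun h => hpm (by exact_mod_cast h), fun h => ?_⟩
  rcases Nat.lt_or_ge z0 p with h6 | h6
  · apply h5 p (mem_filter.2 ⟨hp, h6⟩)
    refine ⟨hpm, ?_⟩
    rw [hN]
    have h7 : (m : ℤ) ≡ F N [ZMOD p] := Int.modEq_iff_dvd.2 h
    have h8 : m ≡ F N [MOD p] := (Int.natCast_modEq_iff).1 h7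
    exact h8.symm
  · have h7 := h2 p (mem_pz.2 ⟨h6, hpp⟩)
    unfold tt at h7
    rw [if_pos h6, hN] at h7
    have h8 : (p : ℤ) ∣ N := by
      exact_mod_cast Nat.dvd_of_mod_eq_zero h7.1
    have h9 : (p : ℤ) ∣ (m : ℤ) - 1 := by
      have h10 : 1 ≡ m [MOD p] := h7.2.symm
      have h11 : ((1 : ℕ) : ℤ) ≡ m [ZMOD p] := (Int.natCast_modEq_iff).2 h10
      have := Int.modEq_iff_dvd.1 h11
      simpa using this
    have h10 : (p : ℤ) ∣ 1 := by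
      have e : (1 : ℤ) = ((F N : ℤ) - m) + ((m : ℤ) - 1) - N * (2 * N + 2) := by
        unfold F; push_cast; ring
      rw [e]
      exact dvd_sub (dvd_add h h9) (Dvd.dvd.mul_right h8 _)
    have h11 : p ∣ 1 := by exact_mod_cast h10
    exact hpp.one_lt.ne' (Nat.dvd_one.1 h11)

open Classical in
lemma fiber_le {z0 J M : ℕ} {α β : ℝ} (N y : ℕ) (hα : 0 ≤ α) (hαβ : α ≤ β) (hβ : β ≤ 1)
    (hα2 : 2 ≤ 2 * (N : ℝ) * α) (hy : y ≤ yJ J) (hyN : yJ J < N ^ 2) :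
    ∃ u X : ℕ, (X : ℝ) ≤ 2 * (β - α) * (N + 1) + 1 ∧
      ((G z0 J M α β).filter (fun m => Nat.sqrt m = N)).card ≤
        ((Icc 1 X).filter (fun n : ℕ => ∀ p ∈ pz y, ¬ Q N u p n)).card := by
  have hN0 : (0 : ℝ) ≤ N := Nat.cast_nonneg _
  set A : ℝ := ((N : ℝ) + α) ^ 2 with hA
  have hA1 : (N : ℝ) ^ 2 + 2 ≤ A := by rw [hA]; nlinarith
  set a : ℕ := ⌈A⌉₊ with ha
  have ha1 : N ^ 2 + 2 ≤ a := by
    have h1 : A ≤ a := Nat.le_ceil A
    have h2 : ((N ^ 2 + 2 : ℕ) : ℝ) ≤ a := by push_cast; linarith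
    exact_mod_cast h2
  obtain ⟨u, hu⟩ := Nat.exists_eq_add_of_le ha1
  refine ⟨u, ⌊2 * (β - α) * (N + 1) + 1⌋₊, Nat.floor_le (by nlinarith), ?_⟩
  have hmem : ∀ m ∈ (G z0 J M α β).filter (fun m => Nat.sqrt m = N), a ≤ m ∧
      (m : ℝ) < ((N : ℝ) + β) ^ 2 ∧ N ^ 2 ≤ m := by
    intro m hm
    obtain ⟨h1, h2⟩ := mem_filter.1 hm
    unfold G Cset at h1
    rw [mem_filter, mem_filter] at h1
    obtain ⟨⟨_, _, h3, h4⟩, _⟩ := h1
    rw [h2] at h3 h4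
    have h5 : (N : ℝ) + α ≤ √(m : ℝ) := by linarith
    have h6 : √(m : ℝ) < N + β := by linarith
    have h7 : √(m : ℝ) ^ 2 = m := Real.sq_sqrt (Nat.cast_nonneg _)
    have h8 : 0 ≤ √(m : ℝ) := Real.sqrt_nonneg _
    refine ⟨?_, ?_, ?_⟩
    · apply Nat.ceil_le.2
      rw [← h7, hA]
      exact pow_le_pow_left₀ (by linarith) h5 2
    · rw [← h7]
      exact pow_lt_pow_left₀ h6 h8 (by norm_num)
    · rw [← h2]
      exact Nat.sqrt_le' m
  apply card_le_card_of_injOn (fun m => m - N ^ 2 - 1 - u)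
  · intro m hm
    rw [mem_coe] at hm
    obtain ⟨h1, h2, h3⟩ := hmem m hm
    obtain ⟨h4, h5⟩ := mem_filter.1 hm
    simp only [coe_filter, Set.mem_setOf_eq, mem_Icc]
    have e1 : m = N ^ 2 + 1 + u + (m - N ^ 2 - 1 - u) := by omega
    set n := m - N ^ 2 - 1 - u with hn
    refine ⟨⟨by omega, ?_⟩, ?_⟩
    · apply Nat.le_floor
      have h6 : (m : ℝ) = (N : ℝ) ^ 2 + 1 + u + n := by exact_mod_cast e1
      have h7 : A ≤ (N : ℝ) ^ 2 + 2 + u := by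
        have : A ≤ a := Nat.le_ceil A
        rw [hu] at this
        exact_mod_cast this
      have h8 : ((N : ℝ) + β) ^ 2 ≤ A + 2 * (β - α) * (N + 1) := by
        rw [hA]
        nlinarith
      linarith
    · intro p hp hQ
      have hp' : p ∈ pz (yJ J) := mem_pz.2 ⟨(mem_pz.1 hp).1.trans hy, (mem_pz.1 hp).2⟩
      have h6 := no_small h4 h5 (by omega) hp'
      unfold Q at hQ
      have e2 : ((m : ℕ) : ℤ) = (N : ℤ) ^ 2 + 1 + u + n := by exact_mod_cast e1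
      have e3 : (N : ℤ) ^ 2 + (u + n) + 1 = m := by rw [e2]; ring
      have e4 : ((N : ℤ) + 1) ^ 2 - (u + n) = (F N : ℤ) - m := by
        rw [e2]; unfold F; push_cast; ring
      rw [e3, e4] at hQ
      rcases (Nat.prime_iff_prime_int.1 (mem_pz.1 hp).2).dvd_or_dvd hQ with h7 | h7
      · exact h6.1 h7
      · exact h6.2 h7
  · intro m hm m' hm' h
    rw [mem_coe] at hm hm'
    have h1 := (hmem m hm).1
    have h2 := (hmem m' hm').1
    simp only at h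
    omega

end Pool.Agent.K7.H67.SQ
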