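import Mathlib
import Pool.Agent.K7.H67.SQ.Up
import Pool.Agent.K7.H67.SQ.Avg

/-! A positive proportion of the `N` have many pairs (prime, almost prime). -/

set_option autoImplicit false

namespace Pool.Agent.K7.H67.SQ

open Finset Filter
open Pool.Agent.H425R3.JL (PR)
open Pool.Agent.H373R2.T7 (pz mem_pz Vz nuB nuB_le)

open Classical in
/-- the admissible `k` -/
noncomputable def KS (r : ℕ) (δ : ℝ) (N : ℕ) (α β : ℝ) : Finset ℕ :=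
  (Icc 2 (2 * N)).filter (fun k : ℕ => 2 * α * N ≤ k ∧ (k : ℝ) ≤ 2 * β * N ∧ (N ^ 2 + k + 1).Prime ∧
    ((N + 1) ^ 2 - k).primeFactorsList.length ≤ r ∧
      ∀ p : ℕ, p.Prime → p ∣ (N + 1) ^ 2 - k → (N : ℝ) ^ δ < p)

lemma pow_len {B : ℝ} (hB : 0 ≤ B) (l : List ℕ) (h : ∀ p ∈ l, B ≤ (p : ℝ)) :
    B ^ l.length ≤ ((l.prod : ℕ) : ℝ) := by
  induction l with
  | nil => simp
  | cons a l ih =>
    rw [List.length_cons, List.prod_cons, pow_succ, mul_comm, Nat.cast_mul]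
    have h1 := ih (fun p hp => h p (List.mem_cons_of_mem _ hp))
    have h2 := h a List.mem_cons_self
    exact mul_le_mul h2 h1 (by positivity) (Nat.cast_nonneg _)

lemma len_le {N q r : ℕ} {δ : ℝ} (hN : 2 ≤ N) (hq : 1 ≤ q) (hqN : q ≤ N ^ 3) (hδ : 0 < δ)
    (hr : 3 / δ ≤ r) (h : ∀ p : ℕ, p.Prime → p ∣ q → (N : ℝ) ^ δ < p) :
    q.primeFactorsList.length ≤ r := by
  have hN1 : (1 : ℝ) < N := by exact_mod_cast (by omega : 1 < N)
  have hN0 : (0 : ℝ) < N := by linarith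
  have h1 := pow_len (B := (N : ℝ) ^ δ) (by positivity) q.primeFactorsList (fun p hp =>
    (h p (Nat.prime_of_mem_primeFactorsList hp) (Nat.dvd_of_mem_primeFactorsList hp)).le)
  rw [Nat.prod_primeFactorsList (by omega)] at h1
  have h2 : (q : ℝ) ≤ (N : ℝ) ^ (3 : ℝ) := by
    rw [show (3 : ℝ) = ((3 : ℕ) : ℝ) by norm_num, Real.rpow_natCast]
    exact_mod_cast hqN
  have h3 := h1.trans h2
  rw [← Real.rpow_natCast, ← Real.rpow_mul hN0.le] at h3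
  have h4 := (Real.rpow_le_rpow_left_iff hN1).1 h3
  have h5 : (q.primeFactorsList.length : ℝ) ≤ 3 / δ := by
    rw [le_div_iff₀ hδ]
    linarith
  exact_mod_cast h5.trans hr

open Classical in
lemma fib_KS {z0 J M r N : ℕ} {δ α β α' β' : ℝ} (hα : 0 ≤ α) (hβ : β ≤ 1) (hαβ : 0 < β - α)
    (e1 : α' = α + (β - α) / 4) (e2 : β' = β - (β - α) / 4) (hN2 : 2 ≤ N) (h6 : 6 ≤ (N : ℝ) * (β - α))
    (hJN : yJ J < N ^ 2) (hδ : 0 < δ) (hr : 3 / δ ≤ r)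
    (hbig : ∀ p : ℕ, yJ J < p → (N : ℝ) ^ δ < p) :
    ((G z0 J M α' β').filter (fun m => Nat.sqrt m = N)).card ≤ (KS r δ N α β).card := by
  have hN0 : (0 : ℝ) ≤ N := Nat.cast_nonneg _
  have hN2r : (2 : ℝ) ≤ N := by exact_mod_cast hN2
  have hmem : ∀ m ∈ (G z0 J M α' β').filter (fun m => Nat.sqrt m = N), N ^ 2 + 3 ≤ m ∧
      m < (N + 1) ^ 2 ∧ (N : ℝ) ^ 2 + 1 + 2 * α * N ≤ m ∧ (m : ℝ) ≤ (N : ℝ) ^ 2 + 1 + 2 * β * N := by
    intro m hm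
    obtain ⟨h1, h2⟩ := mem_filter.1 hm
    unfold G Cset at h1
    rw [mem_filter, mem_filter] at h1
    obtain ⟨⟨_, _, h3, h4⟩, _⟩ := h1
    rw [h2] at h3 h4
    have h5 : (N : ℝ) + α' ≤ √(m : ℝ) := by linarith
    have h5' : √(m : ℝ) < N + β' := by linarith
    have h7 : √(m : ℝ) ^ 2 = m := Real.sq_sqrt (Nat.cast_nonneg _)
    have h8 : 0 ≤ √(m : ℝ) := Real.sqrt_nonneg _
    have hα' : 0 ≤ α' := by rw [e1]; linarith
    have hβ' : β' ≤ 1 := by rw [e2]; linarith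
    have hβ'0 : 0 ≤ β' := by rw [e2]; linarith
    have g1 : ((N : ℝ) + α') ^ 2 ≤ m := by
      rw [← h7]
      exact pow_le_pow_left₀ (by linarith) h5 2
    have g2 : (m : ℝ) < ((N : ℝ) + β') ^ 2 := by
      rw [← h7]
      exact pow_lt_pow_left₀ h5' h8 (by norm_num)
    have g3 : 2 * (N : ℝ) * α' = 2 * α * N + (N * (β - α)) / 2 := by rw [e1]; ring
    have g4 : 2 * (N : ℝ) * β' = 2 * β * N - (N * (β - α)) / 2 := by rw [e2]; ring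
    refine ⟨?_, ?_, ?_, ?_⟩
    · have : ((N ^ 2 + 3 : ℕ) : ℝ) ≤ m := by
        push_cast
        have : 0 ≤ α * N := by positivity
        nlinarith [sq_nonneg α']
      exact_mod_cast this
    · rw [← h2]
      exact Nat.lt_succ_sqrt' m
    · nlinarith [sq_nonneg α']
    · nlinarith
  apply card_le_card_of_injOn (fun m => m - N ^ 2 - 1)
  · intro m hm
    rw [mem_coe] at hm
    obtain ⟨h1, h2, h3, h4⟩ := hmem m hm
    obtain ⟨g4, g5⟩ := mem_filter.1 hm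
    have hmp : m.Prime := by
      have := g4
      unfold G Cset at this
      rw [mem_filter, mem_filter] at this
      have := this.1.1
      unfold PR at this
      exact (mem_filter.1 this).2
    have hsq : (N + 1) ^ 2 = N ^ 2 + 2 * N + 1 := by ring
    have ek : m = N ^ 2 + (m - N ^ 2 - 1) + 1 := by omega
    show m - N ^ 2 - 1 ∈ (KS r δ N α β : Set ℕ)
    set k := m - N ^ 2 - 1 with hk
    have hk2N : k ≤ 2 * N := by omega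
    have ekr : (m : ℝ) = (N : ℝ) ^ 2 + k + 1 := by exact_mod_cast ek
    have eq : ((((N + 1) ^ 2 - k : ℕ)) : ℤ) = (F N : ℤ) - m := by
      have ekz : (m : ℤ) = (N : ℤ) ^ 2 + k + 1 := by exact_mod_cast ek
      rw [Nat.cast_sub (by omega), ekz]
      unfold F
      push_cast
      ring
    have hprimes : ∀ p : ℕ, p.Prime → p ∣ (N + 1) ^ 2 - k → (N : ℝ) ^ δ < p := by
      intro p hp hd
      apply hbig
      by_contra hlt
      have h7 := (no_small g4 g5 (by omega) (mem_pz.2 ⟨not_lt.1 hlt, hp⟩)).2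
      apply h7
      rw [← eq]
      exact_mod_cast hd
    have hq1 : 1 ≤ (N + 1) ^ 2 - k := by omega
    have hqN : (N + 1) ^ 2 - k ≤ N ^ 3 := by
      have : N ^ 2 + 3 ≤ N ^ 2 + k + 1 := by omega
      have h9 : (N + 1) ^ 2 - k ≤ N ^ 2 + 2 * N := by omega
      refine h9.trans ?_
      nlinarith [Nat.mul_le_mul hN2 hN2, Nat.mul_le_mul hN2 (le_refl (N * N))]
    unfold KS
    rw [mem_coe, mem_filter, mem_Icc]
    refine ⟨⟨by omega, hk2N⟩, by linarith, by linarith, ?_, len_le hN2 hq1 hqN hδ hr hprimes, hprimes⟩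
    rw [← ek]
    exact hmp
  · intro m hm m' hm' h
    rw [mem_coe] at hm hm'
    have h1 := (hmem m hm).1
    have h2 := (hmem m' hm').1
    simp only at h
    omega

lemma yJ_cast (j : ℕ) : ((yJ j : ℕ) : ℝ) = (2 : ℝ) ^ 2 ^ j - 1 := by
  unfold yJ
  rw [Nat.cast_sub Nat.one_le_two_pow]
  push_cast
  rfl

lemma yJ_mono {i j : ℕ} (h : i ≤ j) : yJ i ≤ yJ j := by
  unfold yJ
  have : 2 ^ 2 ^ i ≤ 2 ^ 2 ^ j := Nat.pow_le_pow_right (by norm_num) (Nat.pow_le_pow_right (by norm_num) h)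
  omega

lemma yJ_le {η : ℝ} {Y : ℕ} (h : 2 ≤ (Y : ℝ) ^ η) : ((yJ (JN η Y) : ℕ) : ℝ) ≤ (Y : ℝ) ^ η := by
  have h1 := JN_le h
  rw [yJ_cast]
  linarith

lemma yJ_gt {η : ℝ} {Y : ℕ} (h : 2 ≤ (Y : ℝ) ^ η) : (Y : ℝ) ^ η < ((yJ (JN η Y) : ℕ) + 1 : ℝ) ^ 2 + 1 := by
  have h1 := JN_gt h
  rw [yJ_cast, sub_add_cancel, ← pow_mul, mul_comm (2 ^ JN η Y) 2]
  exact h1

lemma JN_log {η : ℝ} {Y : ℕ} (hY : 1 ≤ Y) (h : 2 ≤ (Y : ℝ) ^ η) :
    η * Real.log Y / 3 ≤ (2 : ℝ) ^ JN η Y := by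
  have hY0 : (0 : ℝ) < Y := by exact_mod_cast hY
  have hgt := JN_gt h
  set J := JN η Y
  have h1 : (2 : ℝ) ^ (2 * 2 ^ J) + 1 ≤ (2 : ℝ) ^ (3 * 2 ^ J) := by
    have h3 : (2 : ℝ) ≤ (2 : ℝ) ^ 2 ^ J := by
      calc (2 : ℝ) = 2 ^ 1 := (pow_one _).symm
        _ ≤ 2 ^ 2 ^ J := pow_le_pow_right₀ (by norm_num) Nat.one_le_two_pow
    have h4 : (2 : ℝ) ^ (2 * 2 ^ J) = (2 ^ 2 ^ J) ^ 2 := by rw [← pow_mul, mul_comm]
    have h5 : (2 : ℝ) ^ (3 * 2 ^ J) = (2 ^ 2 ^ J) ^ 3 := by rw [← pow_mul, mul_comm]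
    rw [h4, h5]
    set t := (2 : ℝ) ^ 2 ^ J
    nlinarith [mul_nonneg (by linarith : (0:ℝ) ≤ t - 2) (sq_nonneg t)]
  have h2 := Real.log_le_log (by positivity) (hgt.le.trans h1)
  rw [Real.log_rpow hY0, Real.log_pow] at h2
  push_cast at h2
  have h3 : Real.log 2 ≤ 1 := by have := Real.log_two_lt_d9; linarith
  have h4 : (0 : ℝ) ≤ (2 : ℝ) ^ J := by positivity
  have h5 : 0 ≤ Real.log 2 := Real.log_nonneg (by norm_num)
  nlinarith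

/-- the second moment argument -/
lemma second_moment {I : Finset ℕ} {R S th : ℕ → ℝ} {Y Λ C5 C3 a : ℝ} (hΛ : 0 < Λ) (hY : 0 < Y)
    (hC5 : 0 < C5) (hC3 : 0 < C3) (ha : 0 < a) (hI : (I.card : ℝ) ≤ Y)
    (hlow : 2 * a * Λ * Y ≤ ∑ N ∈ I, R N) (hup : ∀ N ∈ I, R N ≤ C5 * Λ * S N)
    (hS : ∑ N ∈ I, S N ^ 2 ≤ C3 * Y) (hth : ∀ N ∈ I, th N ≤ a * Λ) :
    a ^ 2 / (C5 ^ 2 * C3) * Y ≤ ((I.filter (fun N => th N ≤ R N)).card : ℝ) := by
  classical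
  set T := I.filter (fun N => th N ≤ R N) with hT
  have h1 : ∑ N ∈ I.filter (fun N => ¬ th N ≤ R N), R N ≤ a * Λ * Y := by
    calc ∑ N ∈ I.filter (fun N => ¬ th N ≤ R N), R N ≤ ∑ N ∈ I.filter (fun N => ¬ th N ≤ R N), a * Λ := by
          apply sum_le_sum
          intro N hN
          rw [mem_filter] at hN
          exact (not_le.1 hN.2).le.trans (hth N hN.1)
      _ = ((I.filter (fun N => ¬ th N ≤ R N)).card : ℝ) * (a * Λ) := by rw [sum_const, nsmul_eq_mul]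
      _ ≤ Y * (a * Λ) := by
          apply mul_le_mul_of_nonneg_right _ (by positivity)
          refine le_trans ?_ hI
          exact_mod_cast card_filter_le _ _
      _ = a * Λ * Y := by ring
  have h2 : ∑ N ∈ I, R N = ∑ N ∈ T, R N + ∑ N ∈ I.filter (fun N => ¬ th N ≤ R N), R N := by
    rw [hT, sum_filter_add_sum_filter_not]
  have hTlow : a * Λ * Y ≤ ∑ N ∈ T, R N := by linarith
  have hTup : ∑ N ∈ T, R N ≤ C5 * Λ * ∑ N ∈ T, S N := by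
    rw [mul_sum]
    exact sum_le_sum fun N hN => hup N (mem_filter.1 hN).1
  have hCS : (∑ N ∈ T, S N) ^ 2 ≤ T.card * (C3 * Y) := by
    refine sq_sum_le_card_mul_sum_sq.trans ?_
    apply mul_le_mul_of_nonneg_left _ (Nat.cast_nonneg _)
    exact (sum_le_sum_of_subset_of_nonneg (filter_subset _ _) (fun _ _ _ => sq_nonneg _)).trans hS
  have h3 : a * Y ≤ C5 * ∑ N ∈ T, S N := by
    have h4 := hTlow.trans hTup
    have h5 : Λ * (a * Y) ≤ Λ * (C5 * ∑ N ∈ T, S N) := by linarith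
    exact le_of_mul_le_mul_left h5 hΛ
  have h4 : (a * Y) ^ 2 ≤ C5 ^ 2 * (T.card * (C3 * Y)) := by
    calc (a * Y) ^ 2 ≤ (C5 * ∑ N ∈ T, S N) ^ 2 := pow_le_pow_left₀ (by positivity) h3 2
      _ = C5 ^ 2 * (∑ N ∈ T, S N) ^ 2 := by ring
      _ ≤ _ := mul_le_mul_of_nonneg_left hCS (by positivity)
  have h5 : Y * (a ^ 2 * Y) ≤ Y * (C5 ^ 2 * C3 * T.card) := by linarith
  have h6 := le_of_mul_le_mul_left h5 hY
  rw [div_mul_eq_mul_div, div_le_iff₀ (by positivity)]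
  linarith

open Classical in
/-- the partition of the primes found according to `N` -/
lemma partition {z0 J Y : ℕ} {α β : ℝ} (hY : 1 ≤ Y) :
    ((G z0 J (Y ^ 2) α β).card : ℝ) ≤ 4 * Y + ∑ N ∈ Icc (Nat.sqrt Y + 1) Y,
      (((G z0 J (Y ^ 2) α β).filter (fun m => Nat.sqrt m = N)).card : ℝ) := by
  set s := Nat.sqrt Y with hs
  have hs1 : 1 ≤ s := by
    rw [hs]
    exact Nat.le_sqrt.2 (by omega)
  have hsY : s * s ≤ Y := Nat.sqrt_le Y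
  have h1 : (G z0 J (Y ^ 2) α β).card ≤ (s + 1) ^ 2 + ∑ N ∈ Icc (s + 1) Y,
      ((G z0 J (Y ^ 2) α β).filter (fun m => Nat.sqrt m = N)).card := by
    rw [← card_filter_add_card_filter_not (s := G z0 J (Y ^ 2) α β) (fun m => Nat.sqrt m ≤ s)]
    apply add_le_add
    · calc ((G z0 J (Y ^ 2) α β).filter (fun m => Nat.sqrt m ≤ s)).card ≤ (range ((s + 1) ^ 2)).card := by
            apply card_le_card
            intro m hm
            rw [mem_filter] at hm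
            rw [mem_range]
            have h2 := Nat.lt_succ_sqrt' m
            refine h2.trans_le ?_
            exact Nat.pow_le_pow_left (by have := hm.2; omega) 2
        _ = (s + 1) ^ 2 := card_range _
    · rw [card_eq_sum_card_fiberwise (f := fun m : ℕ => Nat.sqrt m) (t := Icc (s + 1) Y)]
      · apply sum_le_sum
        intro N _
        apply card_le_card
        intro m hm
        rw [mem_filter, mem_filter] at hm
        exact mem_filter.2 ⟨hm.1.1, hm.2⟩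
      · intro m hm
        rw [mem_coe, mem_filter] at hm
        rw [mem_coe, mem_Icc]
        have h2 := hm.2
        have h3 := hm.1
        unfold G Cset at h3
        rw [mem_filter, mem_filter] at h3
        have h4 := h3.1.1
        unfold PR at h4
        rw [mem_filter, mem_Icc] at h4
        have h5 : m ≤ Y ^ 2 := h4.1.2
        have h6 := Nat.sqrt_le_sqrt h5
        rw [Nat.sqrt_eq'] at h6
        show s + 1 ≤ Nat.sqrt m ∧ Nat.sqrt m ≤ Y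
        exact ⟨by omega, h6⟩
  have h2 : ((s + 1) ^ 2 : ℕ) ≤ 4 * Y := by nlinarith
  have h3 : (((s + 1) ^ 2 : ℕ) : ℝ) ≤ ((4 * Y : ℕ) : ℝ) := by exact_mod_cast h2
  have h4 : ((G z0 J (Y ^ 2) α β).card : ℝ) ≤ (((s + 1) ^ 2 + ∑ N ∈ Icc (s + 1) Y,
      ((G z0 J (Y ^ 2) α β).filter (fun m => Nat.sqrt m = N)).card : ℕ) : ℝ) := by exact_mod_cast h1
  rw [Nat.cast_add, Nat.cast_sum] at h4
  push_cast at h3 h4
  linarith

/-- the large prime factors -/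
lemma big_primes {η' η : ℝ} {Y J : ℕ} (hη : 0 < η) (hη' : η' ≤ η) (v1 : 2 ≤ (Y : ℝ) ^ η')
    (hJ : (Y : ℝ) ^ (2 * η) < ((yJ J : ℕ) + 1 : ℝ) ^ 2 + 1) {N : ℕ} (hN1 : 1 ≤ N) (hNY : N ≤ Y) {δ : ℝ}
    (hδ : δ ≤ η / 2) {p : ℕ} (hp : yJ J < p) : (N : ℝ) ^ δ < p := by
  have hY1 : (1 : ℝ) ≤ Y := by exact_mod_cast hN1.trans hNY
  have hY0 : (0 : ℝ) < Y := by linarith
  have hN1r : (1 : ℝ) ≤ N := by exact_mod_cast hN1
  have h1 : (N : ℝ) ^ δ ≤ (Y : ℝ) ^ (η / 2) := by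
    calc (N : ℝ) ^ δ ≤ (N : ℝ) ^ (η / 2) := Real.rpow_le_rpow_of_exponent_le hN1r hδ
      _ ≤ (Y : ℝ) ^ (η / 2) := Real.rpow_le_rpow (by linarith) (by exact_mod_cast hNY) (by positivity)
  refine h1.trans_lt ?_
  have h2 : ((yJ J : ℕ) : ℝ) + 1 ≤ p := by exact_mod_cast hp
  have h3 : (((yJ J : ℕ) : ℝ) + 1) ^ 2 ≤ (p : ℝ) ^ 2 := pow_le_pow_left₀ (by positivity) h2 2
  have h4 : (Y : ℝ) ^ η' ≤ (Y : ℝ) ^ η := Real.rpow_le_rpow_of_exponent_le hY1 hη'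
  have h5 : (2 : ℝ) ≤ (Y : ℝ) ^ η := v1.trans h4
  have h6 : (Y : ℝ) ^ (2 * η) = (Y : ℝ) ^ η * (Y : ℝ) ^ η := by
    rw [← Real.rpow_add hY0]; ring_nf
  have h7 : ((Y : ℝ) ^ (η / 2)) ^ 2 = (Y : ℝ) ^ η := by
    rw [← Real.rpow_natCast, ← Real.rpow_mul hY0.le]; norm_num
  rw [h6] at hJ
  have h8 : ((Y : ℝ) ^ (η / 2)) ^ 2 < (p : ℝ) ^ 2 := by
    rw [h7]
    nlinarith
  exact lt_of_pow_lt_pow_left₀ 2 (Nat.cast_nonneg _) h8

/-- the sifting level -/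
lemma level {η' C2 L V : ℝ} {J' : ℕ} (hη : 0 < η') (hL : 0 < L) (hC2 : 0 < C2) (hV0 : 0 ≤ V)
    (hV : V ≤ C2 / 2 ^ J') (h : η' * L / 3 ≤ (2 : ℝ) ^ J') : V ^ 2 ≤ (3 * C2 / η') ^ 2 / L ^ 2 := by
  have h1 : V ≤ 3 * C2 / η' / L := by
    refine hV.trans ?_
    rw [div_div, div_le_div_iff₀ (by positivity) (by positivity)]
    have : C2 * (η' * L / 3) ≤ C2 * 2 ^ J' := mul_le_mul_of_nonneg_left h hC2.le
    nlinarith
  calc V ^ 2 ≤ (3 * C2 / η' / L) ^ 2 := pow_le_pow_left₀ hV0 h1 2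
    _ = (3 * C2 / η') ^ 2 / L ^ 2 := by ring

lemma pow_level {η' : ℝ} {Y y k : ℕ} {t : ℝ} (hY : 1 ≤ Y) (hy : (y : ℝ) ≤ (Y : ℝ) ^ η')
    (h : η' * k ≤ t) : ((y ^ k : ℕ) : ℝ) ≤ (Y : ℝ) ^ t := by
  have hY1 : (1 : ℝ) ≤ Y := by exact_mod_cast hY
  push_cast
  calc (y : ℝ) ^ k ≤ ((Y : ℝ) ^ η') ^ k := pow_le_pow_left₀ (Nat.cast_nonneg _) hy k
    _ = (Y : ℝ) ^ (η' * k) := by
      rw [← Real.rpow_natCast, ← Real.rpow_mul (by linarith)]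
    _ ≤ (Y : ℝ) ^ t := Real.rpow_le_rpow_of_exponent_le hY1 h

lemma sqrt_level {Y : ℕ} {x : ℝ} (hY : 1 ≤ Y) (h : x ≤ (Y : ℝ) ^ (1 / 4 : ℝ)) :
    √x ≤ (Y : ℝ) ^ (1 / 8 : ℝ) := by
  have hY0 : (0 : ℝ) < Y := by exact_mod_cast hY
  rw [Real.sqrt_le_left (Real.rpow_nonneg hY0.le _)]
  refine h.trans (le_of_eq ?_)
  rw [← Real.rpow_natCast, ← Real.rpow_mul hY0.le]
  norm_num

/-- sizes -/
lemma sizes {Y L b τ : ℝ} (hY : 1 ≤ Y) (hτ : τ ≤ 1 / 16) (hL : 0 < L) (hL2 : L ^ 2 ≤ Y ^ (1 / 8 : ℝ))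
    (hb : Y ^ (-τ) ≤ b) : Y ^ (1 / 2 : ℝ) ≤ b * Y / L ^ 2 ∧ Y ^ (3 / 4 : ℝ) ≤ b * Y := by
  have hY0 : 0 < Y := by linarith
  have h1 : Y ^ (3 / 4 : ℝ) ≤ b * Y := by
    calc Y ^ (3 / 4 : ℝ) ≤ Y ^ (-τ + 1 : ℝ) := Real.rpow_le_rpow_of_exponent_le hY (by linarith)
      _ = Y ^ (-τ) * Y := by rw [Real.rpow_add hY0, Real.rpow_one]
      _ ≤ b * Y := mul_le_mul_of_nonneg_right hb hY0.le
  refine ⟨?_, h1⟩
  rw [le_div_iff₀ (by positivity)]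
  calc Y ^ (1 / 2 : ℝ) * L ^ 2 ≤ Y ^ (1 / 2 : ℝ) * Y ^ (1 / 8 : ℝ) :=
        mul_le_mul_of_nonneg_left hL2 (Real.rpow_nonneg hY0.le _)
    _ = Y ^ (5 / 8 : ℝ) := by rw [← Real.rpow_add hY0]; norm_num
    _ ≤ Y ^ (3 / 4 : ℝ) := Real.rpow_le_rpow_of_exponent_le hY (by norm_num)
    _ ≤ _ := h1

lemma size_N {Y b τ N : ℝ} (hY : 1 ≤ Y) (hτ : τ ≤ 1 / 16) (hY16 : 16 ≤ Y ^ (1 / 8 : ℝ))
    (hb : Y ^ (-τ) ≤ b) (hN : Y ≤ N ^ 2) (hN0 : 0 ≤ N) : 16 ≤ N * b := by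
  have hY0 : 0 < Y := by linarith
  have h1 : Y ^ (1 / 2 : ℝ) ≤ N := by
    rw [← Real.sqrt_eq_rpow, Real.sqrt_le_left hN0]
    exact hN
  calc (16 : ℝ) ≤ Y ^ (1 / 8 : ℝ) := hY16
    _ ≤ Y ^ (1 / 2 + -τ : ℝ) := Real.rpow_le_rpow_of_exponent_le hY (by linarith)
    _ = Y ^ (1 / 2 : ℝ) * Y ^ (-τ) := Real.rpow_add hY0 _ _
    _ ≤ N * b := mul_le_mul h1 hb (Real.rpow_nonneg hY0.le _) hN0

lemma two_shift {Y τ b : ℝ} (hY : 0 < Y) (v : 2 ≤ Y ^ τ) (hb : Y ^ (-τ) ≤ b) : Y ^ (2 * -τ) ≤ b / 2 := by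
  have h2 : Y ^ (2 * -τ) * 2 ≤ Y ^ (-τ) := by
    calc Y ^ (2 * -τ) * 2 ≤ Y ^ (2 * -τ) * Y ^ τ := mul_le_mul_of_nonneg_left v (Real.rpow_nonneg hY.le _)
      _ = Y ^ (-τ) := by rw [← Real.rpow_add hY]; congr 1; ring
  linarith

/-- the threshold -/
lemma thresh {c N Y b : ℝ} (hc : 0 ≤ c) (hb : 0 ≤ b) (hY : 1 < Y) (hNY : N ≤ Y) (hN : Y ≤ N ^ 2)
    (hN0 : 0 < N) : c / 4 * (b * (N / Real.log N ^ 2)) ≤ c * (b * Y / Real.log Y ^ 2) := by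
  have hL : 0 < Real.log Y := Real.log_pos hY
  have h3 : Real.log Y / 2 ≤ Real.log N := by
    have h5 := Real.log_le_log (by linarith) hN
    rw [Real.log_pow] at h5
    push_cast at h5
    linarith
  have h4 : N / Real.log N ^ 2 ≤ Y / (Real.log Y / 2) ^ 2 :=
    div_le_div₀ (by linarith) hNY (by positivity) (pow_le_pow_left₀ (by positivity) h3 2)
  calc c / 4 * (b * (N / Real.log N ^ 2)) ≤ c / 4 * (b * (Y / (Real.log Y / 2) ^ 2)) :=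
        mul_le_mul_of_nonneg_left (mul_le_mul_of_nonneg_left h4 hb) (by positivity)
    _ = c * (b * Y / Real.log Y ^ 2) := by
        field_simp
        ring

lemma up_one {X Λ Y L b V S C4 q : ℝ} (hX : X ≤ 3 * (b * Y)) (hX0 : 0 ≤ X) (hV : V ^ 2 ≤ C4 / L ^ 2)
    (hS : 1 ≤ S) (hΛ : Λ = b * Y / L ^ 2) (hΛ0 : 0 < Λ) (hq : q ≤ Λ) :
    2 * X * (V ^ 2 * S) + q ≤ (6 * C4 + 1) * Λ * S := by
  have h5 : 2 * X * (V ^ 2 * S) ≤ 6 * C4 * Λ * S := by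
    calc 2 * X * (V ^ 2 * S) ≤ 2 * (3 * (b * Y)) * (C4 / L ^ 2 * S) := by
          apply mul_le_mul (by linarith) _ (by positivity) (by linarith)
          exact mul_le_mul_of_nonneg_right hV (by linarith)
      _ = 6 * C4 * Λ * S := by rw [hΛ]; ring
  have h6 : q ≤ Λ * S := hq.trans (le_mul_of_one_le_right hΛ0.le hS)
  calc 2 * X * (V ^ 2 * S) + q ≤ 6 * C4 * Λ * S + Λ * S := by linarith
    _ = (6 * C4 + 1) * Λ * S := by ring

open Classical in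
theorem main : ∃ (r : ℕ) (c δ : ℝ), 0 < c ∧ 0 < δ ∧ ∃ X0 : ℕ, ∀ X : ℕ, X0 ≤ X → ∀ α β : ℝ, 0 ≤ α →
    β ≤ 1 → (X : ℝ) ^ (-δ) ≤ β - α →
    c * X ≤ (((Icc 2 X).filter (fun N : ℕ => c * ((β - α) * (N / Real.log N ^ 2)) ≤
      ((KS r δ N α β).card : ℝ))).card : ℝ) := by
  obtain ⟨τ, hτ⟩ : ∃ τ : ℝ, τ = 1 / 4096 := ⟨_, rfl⟩
  have hτ0 : 0 < τ := by rw [hτ]; norm_num
  have hτ1 : τ ≤ 1 / 16 := by rw [hτ]; norm_num
  obtain ⟨z0, η, c1, hη0, hη1, hc1, N1, hlow⟩ := low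
  rw [← hτ] at hlow
  clear hτ
  obtain ⟨K, x0, hK, hup⟩ := upw
  obtain ⟨c2, C2, hc2, hC2, hV⟩ := V_bounds
  obtain ⟨C3, hC3, havg⟩ := avg_sq
  have hKr : (1 : ℝ) ≤ K := by exact_mod_cast hK
  obtain ⟨η', hη'0, hη'1, hη'K⟩ : ∃ η' : ℝ, 0 < η' ∧ η' ≤ η ∧ η' * K ≤ 1 / 4 := by
    refine ⟨min η (1 / (4 * K)), lt_min hη0 (by positivity), min_le_left _ _, ?_⟩
    calc min η (1 / (4 * K)) * K ≤ 1 / (4 * K) * K :=
          mul_le_mul_of_nonneg_right (min_le_right _ _) (by linarith)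
      _ = 1 / 4 := by field_simp
  obtain ⟨C4, hC4, hC40⟩ : ∃ C4 : ℝ, C4 = (3 * C2 / η') ^ 2 ∧ 0 < C4 := ⟨_, rfl, by positivity⟩
  obtain ⟨C5, hC5, hC50⟩ : ∃ C5 : ℝ, C5 = 6 * C4 + 1 ∧ 0 < C5 := ⟨_, rfl, by positivity⟩
  obtain ⟨c4, hc4, hc40⟩ : ∃ c4 : ℝ, c4 = (c1 / 32) ^ 2 / (C5 ^ 2 * C3) ∧ 0 < c4 := ⟨_, rfl, by positivity⟩
  obtain ⟨δ, hδ0, hδ1, hδ2⟩ : ∃ δ : ℝ, 0 < δ ∧ δ ≤ τ ∧ δ ≤ η / 2 :=
    ⟨min τ (η / 2), lt_min hτ0 (by positivity), min_le_left _ _, min_le_right _ _⟩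
  obtain ⟨N2, hN2⟩ := eventually_atTop.1 ((ev_rpow_ge 2 η' hη'0).and
    ((ev_rpow_ge (((x0 : ℝ) + 2) ^ 2 + 1) η' hη'0).and
    ((ev_rpow_ge (64 + 64 / c1) (1 / 8) (by norm_num)).and
    ((ev_log_le 1 2 (1 / 8) (by norm_num)).and
    ((ev_rpow_ge 2 τ hτ0).and (eventually_ge_atTop 16))))))
  refine ⟨⌈3 / δ⌉₊, min (c1 / 128) c4, δ, lt_min (by positivity) hc40, hδ0, max N1 N2, ?_⟩
  intro Y hY α β hα hβ hβα
  obtain ⟨v1, v2, v3, v4, v5, v6⟩ := hN2 Y ((le_max_right _ _).trans hY)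
  have hYN1 : N1 ≤ Y := (le_max_left _ _).trans hY
  have hY1n : 1 ≤ Y := by omega
  have hYr : (16 : ℝ) ≤ Y := by exact_mod_cast v6
  have hY0 : (0 : ℝ) < Y := by linarith
  have hY1 : (1 : ℝ) ≤ Y := by linarith
  have hlogY : 1 ≤ Real.log (Y : ℝ) := by
    rw [Real.le_log_iff_exp_le hY0]
    have := Real.exp_one_lt_d9
    linarith
  have hL0 : 0 < Real.log (Y : ℝ) := by linarith
  rw [one_mul] at v4
  have hMr : ((Y ^ 2 : ℕ) : ℝ) = (Y : ℝ) ^ (2 : ℝ) := by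
    rw [show (2 : ℝ) = ((2 : ℕ) : ℝ) by norm_num, Real.rpow_natCast]
    push_cast
    rfl
  have hMY : Y ≤ Y ^ 2 := by nlinarith
  have hβα0 : 0 < β - α := lt_of_lt_of_le (Real.rpow_pos_of_pos hY0 _) hβα
  obtain ⟨α', hα'⟩ : ∃ α' : ℝ, α' = α + (β - α) / 4 := ⟨_, rfl⟩
  obtain ⟨β', hβ'⟩ : ∃ β' : ℝ, β' = β - (β - α) / 4 := ⟨_, rfl⟩
  have hα'0 : 0 ≤ α' := by rw [hα']; linarith
  have hβ'1 : β' ≤ 1 := by rw [hβ']; linarith
  have hdiff : β' - α' = (β - α) / 2 := by rw [hα', hβ']; ring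
  -- comparison of the sifting limits
  have hMη : ((Y ^ 2 : ℕ) : ℝ) ^ η = (Y : ℝ) ^ (2 * η) := by rw [hMr, ← Real.rpow_mul hY0.le]
  have hYη : (Y : ℝ) ^ η' ≤ ((Y ^ 2 : ℕ) : ℝ) ^ η := by
    rw [hMη]
    exact Real.rpow_le_rpow_of_exponent_le hY1 (by linarith)
  obtain ⟨J, hJ⟩ : ∃ J : ℕ, J = JN η (Y ^ 2) := ⟨_, rfl⟩
  obtain ⟨y, hy⟩ : ∃ y : ℕ, y = yJ (JN η' Y) := ⟨_, rfl⟩
  have hyJ : y ≤ yJ J := by
    rw [hy, hJ]
    apply yJ_mono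
    unfold JN
    exact Nat.log_mono_right (Nat.log_mono_right (Nat.floor_mono hYη))
  have hyle : (y : ℝ) ≤ (Y : ℝ) ^ η' := by rw [hy]; exact yJ_le v1
  have hyx0 : x0 + 1 ≤ y := by
    by_contra hlt
    push Not at hlt
    have h1 : (y : ℝ) + 1 ≤ (x0 : ℝ) + 2 := by
      have : y + 1 ≤ x0 + 2 := by omega
      exact_mod_cast this
    have h2 := yJ_gt v1
    rw [← hy] at h2
    have h3 : ((y : ℝ) + 1) ^ 2 ≤ ((x0 : ℝ) + 2) ^ 2 := pow_le_pow_left₀ (by linarith [Nat.cast_nonneg (α := ℝ) y]) h1 2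
    linarith
  have hJJY' : yJ J < Y := by
    have h0 := yJ_le (v1.trans hYη)
    rw [← hJ] at h0
    have h1 : ((Y ^ 2 : ℕ) : ℝ) ^ η < (Y : ℝ) ^ (1 : ℝ) := by
      rw [hMη]
      exact Real.rpow_lt_rpow_of_exponent_lt (by linarith) (by linarith)
    rw [Real.rpow_one] at h1
    exact_mod_cast h0.trans_lt h1
  have hJgt : (Y : ℝ) ^ (2 * η) < ((yJ J : ℕ) + 1 : ℝ) ^ 2 + 1 := by
    rw [← hMη, hJ]
    exact yJ_gt (v1.trans hYη)
  have hVz : Vz y ^ 2 ≤ C4 / Real.log (Y : ℝ) ^ 2 := by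
    rw [hC4]
    have h1 := (hV (JN η' Y)).2
    rw [← hy] at h1
    exact level hη'0 hL0 hC2 (Vz_nonneg y) h1 (JN_log hY1n v1)
  have hy12 : y ^ 12 ≤ Y := by
    have h1 := pow_level (k := 12) (t := 1) hY1n hyle (by push_cast; linarith)
    rw [Real.rpow_one] at h1
    exact_mod_cast h1
  have hyK : √((y ^ K : ℕ) : ℝ) ≤ (Y : ℝ) ^ (1 / 8 : ℝ) :=
    sqrt_level hY1n (pow_level hY1n hyle hη'K)
  -- sizes
  have hβαY : (Y : ℝ) ^ (-τ) ≤ β - α :=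
    (Real.rpow_le_rpow_of_exponent_le hY1 (by linarith)).trans hβα
  obtain ⟨hsz1, hsz2⟩ := sizes hY1 hτ1 hL0 v4 hβαY
  obtain ⟨Λ, hΛ⟩ : ∃ Λ : ℝ, Λ = (β - α) * Y / Real.log (Y : ℝ) ^ 2 := ⟨_, rfl⟩
  rw [← hΛ] at hsz1
  have h8Λ : (Y : ℝ) ^ (1 / 8 : ℝ) ≤ Λ :=
    (Real.rpow_le_rpow_of_exponent_le hY1 (by norm_num)).trans hsz1
  have h64 : 0 < 64 / c1 := by positivity
  have hΛc : 64 + 64 / c1 ≤ Λ := v3.trans h8Λ
  have hΛ0 : 0 < Λ := by linarith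
  have h16 : 16 ≤ (Y : ℝ) ^ (1 / 8 : ℝ) := by linarith
  -- the lower bound
  have hmain : c1 / 8 * Λ * Y ≤ ((G z0 J (Y ^ 2) α' β').card : ℝ) := by
    have h1 := hlow (Y ^ 2) (hYN1.trans hMY) α' β' hα'0 (by
      rw [hdiff, hMr, ← Real.rpow_mul hY0.le]
      exact two_shift hY0 v5 hβαY) hβ'1
    rw [← hJ] at h1
    refine le_trans (le_of_eq ?_) h1
    have h2 : Real.log ((Y ^ 2 : ℕ) : ℝ) = 2 * Real.log (Y : ℝ) := by
      rw [hMr, Real.log_rpow hY0]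
    rw [h2, hdiff, hΛ]
    push_cast
    field_simp
    ring
  obtain ⟨I, hI⟩ : ∃ I : Finset ℕ, I = Icc (Nat.sqrt Y + 1) Y := ⟨_, rfl⟩
  have hImem : ∀ N ∈ I, 2 ≤ N ∧ N ≤ Y ∧ Y < N ^ 2 := by
    intro N hN
    rw [hI, mem_Icc] at hN
    have h1 : Y < (Nat.sqrt Y + 1) * (Nat.sqrt Y + 1) := Nat.lt_succ_sqrt Y
    have h2 : 1 ≤ Nat.sqrt Y := Nat.le_sqrt.2 (by omega)
    refine ⟨by omega, hN.2, ?_⟩
    nlinarith [hN.1]
  have hpart := partition (z0 := z0) (J := J) (α := α') (β := β') hY1n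
  rw [← hI] at hpart
  -- the upper bound for one `N`
  have hRup : ∀ N ∈ I, (((G z0 J (Y ^ 2) α' β').filter (fun m => Nat.sqrt m = N)).card : ℝ) ≤ C5 * Λ *
      ∏ p ∈ (pz y).filter (fun p => p ∣ 2 * fN N), (1 + 2 / (p : ℝ)) := by
    intro N hN
    obtain ⟨hN2', hNY, hN3⟩ := hImem N hN
    have hN3r : (Y : ℝ) ≤ (N : ℝ) ^ 2 := by exact_mod_cast hN3.le
    have g16 := size_N hY1 hτ1 h16 hβαY hN3r (Nat.cast_nonneg N)
    have hαN : 0 ≤ α * N := mul_nonneg hα (Nat.cast_nonneg _)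
    obtain ⟨u, X, hX, hcard⟩ := fiber_le (z0 := z0) (J := J) (M := Y ^ 2) (α := α') (β := β') N y hα'0
      (by linarith) hβ'1 (by
        have : 2 * (N : ℝ) * α' = 2 * (α * N) + N * (β - α) / 2 := by rw [hα']; ring
        rw [this]
        linarith) hyJ (hJJY'.trans hN3)
    have h1 := hup (y ^ K) y (by omega) le_rfl N u X
    have hNYr : (N : ℝ) ≤ Y := by exact_mod_cast hNY
    have h3 : (X : ℝ) ≤ 3 * ((β - α) * Y) := by
      have h4 : (N : ℝ) * (β - α) ≤ (β - α) * Y := by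
        rw [mul_comm]
        exact mul_le_mul_of_nonneg_left hNYr hβα0.le
      have hβα1 : β - α ≤ 1 := by linarith
      have h5 : 2 * (β' - α') * ((N : ℝ) + 1) + 1 = N * (β - α) + (β - α) + 1 := by rw [hdiff]; ring
      rw [h5] at hX
      linarith
    have hcard' : (((G z0 J (Y ^ 2) α' β').filter (fun m => Nat.sqrt m = N)).card : ℝ) ≤
        ((((Icc 1 X).filter (fun n : ℕ => ∀ p ∈ pz y, ¬ Q N u p n)).card : ℕ) : ℝ) := by
      exact_mod_cast hcard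
    have hSN : (1 : ℝ) ≤ ∏ p ∈ (pz y).filter (fun p => p ∣ 2 * fN N), (1 + 2 / (p : ℝ)) := by
      calc (1 : ℝ) = ∏ _p ∈ (pz y).filter (fun p => p ∣ 2 * fN N), (1 : ℝ) := by rw [prod_const_one]
        _ ≤ _ := by
          apply Finset.prod_le_prod (fun _ _ => zero_le_one)
          intro p _
          have : 0 ≤ 2 / (p : ℝ) := div_nonneg (by norm_num) (Nat.cast_nonneg _)
          linarith
    rw [hC5]
    exact (hcard'.trans h1).trans (up_one h3 (Nat.cast_nonneg _) hVz hSN hΛ hΛ0 (hyK.trans h8Λ))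
  -- the second moment
  have hsm := second_moment (I := I) (R := fun N => (((G z0 J (Y ^ 2) α' β').filter (fun m => Nat.sqrt m = N)).card : ℝ))
    (S := fun N => ∏ p ∈ (pz y).filter (fun p => p ∣ 2 * fN N), (1 + 2 / (p : ℝ)))
    (th := fun N => c1 / 128 * ((β - α) * (N / Real.log N ^ 2))) (a := c1 / 32) hΛ0 hY0 hC50 hC3 (by positivity) (by
      rw [hI, Nat.card_Icc]
      have : Y + 1 - (Nat.sqrt Y + 1) ≤ Y := by omega
      exact_mod_cast this) (by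
      have h4 : 64 ≤ c1 * Λ := by
        have h5 : 64 / c1 ≤ Λ := by linarith
        rw [div_le_iff₀ hc1] at h5
        linarith
      have h5 : 64 * (Y : ℝ) ≤ c1 * Λ * Y := mul_le_mul_of_nonneg_right h4 hY0.le
      linarith) hRup (by
      refine le_trans (sum_le_sum_of_subset_of_nonneg ?_ (fun _ _ _ => sq_nonneg _)) (havg Y y (by omega) hy12)
      intro N hN
      have := hImem N hN
      exact mem_Icc.2 ⟨by omega, this.2.1⟩) (by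
      intro N hN
      obtain ⟨hN2', hNY, hN3⟩ := hImem N hN
      have h1 := thresh (c := c1 / 32) (N := N) (Y := Y) (b := β - α) (by positivity) hβα0.le (by linarith)
        (by exact_mod_cast hNY) (by exact_mod_cast hN3.le) (by exact_mod_cast (by omega : 0 < N))
      rw [hΛ]
      refine le_trans (le_of_eq ?_) h1
      ring)
  rw [← hc4] at hsm
  -- conclusion
  have hsub : I.filter (fun N : ℕ => c1 / 128 * ((β - α) * (N / Real.log N ^ 2)) ≤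
      (((G z0 J (Y ^ 2) α' β').filter (fun m => Nat.sqrt m = N)).card : ℝ)) ⊆
      (Icc 2 Y).filter (fun N : ℕ => min (c1 / 128) c4 * ((β - α) * (N / Real.log N ^ 2)) ≤
        ((KS ⌈3 / δ⌉₊ δ N α β).card : ℝ)) := by
    intro N hN
    rw [mem_filter] at hN
    obtain ⟨hN2', hNY, hN3⟩ := hImem N hN.1
    rw [mem_filter, mem_Icc]
    refine ⟨⟨hN2', hNY⟩, ?_⟩
    have hN3r : (Y : ℝ) ≤ (N : ℝ) ^ 2 := by exact_mod_cast hN3.le
    have g16 := size_N hY1 hτ1 h16 hβαY hN3r (Nat.cast_nonneg N)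
    have h1 := fib_KS (z0 := z0) (J := J) (M := Y ^ 2) hα hβ hβα0 hα' hβ' hN2' (by linarith)
      (hJJY'.trans hN3) hδ0 (Nat.le_ceil _)
      (fun p hp => big_primes hη0 hη'1 v1 hJgt (by omega) hNY hδ2 hp)
    have h2 : min (c1 / 128) c4 * ((β - α) * (N / Real.log N ^ 2)) ≤
        c1 / 128 * ((β - α) * (N / Real.log N ^ 2)) :=
      mul_le_mul_of_nonneg_right (min_le_left _ _)
        (mul_nonneg hβα0.le (div_nonneg (Nat.cast_nonneg _) (sq_nonneg _)))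
    refine (h2.trans hN.2).trans ?_
    exact_mod_cast h1
  calc min (c1 / 128) c4 * (Y : ℝ) ≤ c4 * Y := mul_le_mul_of_nonneg_right (min_le_right _ _) hY0.le
    _ ≤ _ := hsm
    _ ≤ _ := by exact_mod_cast card_le_card hsub

end Pool.Agent.K7.H67.SQ
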