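import Mathlib
import Pool.Agent.K7.H67.SQ.Fin

/-! Pairs of almost primes in all short windows, for all `N`. -/

set_option autoImplicit false

namespace Pool.Agent.K7.H67.SQ

open Finset Filter
open Pool.Agent.H373R2.T7 (pz mem_pz Vz nuB nuB_le)

lemma big_primes' {η : ℝ} {Y : ℕ} (hY : 1 ≤ Y) (v : 2 ≤ (Y : ℝ) ^ (η / 2)) {p y : ℕ}
    (hJ : (Y : ℝ) ^ η < ((y : ℕ) + 1 : ℝ) ^ 2 + 1) (hp : y < p) : (Y : ℝ) ^ (η / 4) < p := by
  have hY0 : (0 : ℝ) < Y := by exact_mod_cast hY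
  have h2 : (y : ℝ) + 1 ≤ p := by exact_mod_cast hp
  have h3 : ((y : ℝ) + 1) ^ 2 ≤ (p : ℝ) ^ 2 := pow_le_pow_left₀ (by positivity) h2 2
  have h6 : (Y : ℝ) ^ η = (Y : ℝ) ^ (η / 2) * (Y : ℝ) ^ (η / 2) := by
    rw [← Real.rpow_add hY0]; ring_nf
  have h7 : ((Y : ℝ) ^ (η / 4)) ^ 2 = (Y : ℝ) ^ (η / 2) := by
    rw [← Real.rpow_natCast, ← Real.rpow_mul hY0.le]; congr 1; push_cast; ring
  rw [h6] at hJ
  have h8 : ((Y : ℝ) ^ (η / 4)) ^ 2 < (p : ℝ) ^ 2 := by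
    rw [h7]
    nlinarith
  exact lt_of_pow_lt_pow_left₀ 2 (Nat.cast_nonneg _) h8

lemma low_alm {c2 L X V P t l : ℝ} (hc : 0 < c2) (hl : 0 < l) (hX : 0 ≤ X) (hV : c2 / l ≤ V)
    (hP : 1 / 2 * V ^ 2 ≤ P) (ht : t ≤ c2 ^ 2 / 8 * (X / l ^ 2))
    (h : X * P - (1 / 2 * (X * P) + t) ≤ L) : c2 ^ 2 / 8 * (X / l ^ 2) ≤ L := by
  have h1 : (c2 / l) ^ 2 ≤ V ^ 2 := pow_le_pow_left₀ (by positivity) hV 2
  have h2 : X * (1 / 2 * (c2 / l) ^ 2) ≤ X * P := mul_le_mul_of_nonneg_left (by linarith) hX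
  have h3 : X * (1 / 2 * (c2 / l) ^ 2) = c2 ^ 2 / 2 * (X / l ^ 2) := by
    field_simp
  linarith

open Classical in
theorem almost (θ : ℝ) (hθ : 0 < θ) : ∃ (r : ℕ) (c δ : ℝ), 0 < c ∧ 0 < δ ∧ ∃ N₀ : ℕ, ∀ N : ℕ, N₀ ≤ N →
    ∀ u L : ℕ, 1 ≤ u → u + L ≤ 2 * N → (N : ℝ) ^ θ ≤ L →
    c * (L / Real.log N ^ 2) ≤ (((Ioc u (u + L)).filter (fun k : ℕ =>
      (N ^ 2 + k + 1).primeFactorsList.length ≤ r ∧ ((N + 1) ^ 2 - k).primeFactorsList.length ≤ r ∧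
        ∀ p : ℕ, p.Prime → p ∣ (N ^ 2 + k + 1) * ((N + 1) ^ 2 - k) → (N : ℝ) ^ δ < p)).card : ℝ) := by
  obtain ⟨K, x0, hK, hsys⟩ := Pool.Agent.H373R2.T7.sys_fund 2 (by norm_num) (1 / 2) (by norm_num)
  obtain ⟨c2, C2, hc2, hC2, hV⟩ := V_bounds
  have hKr : (1 : ℝ) ≤ K := by exact_mod_cast hK
  obtain ⟨η, hη0, hη1, hηK⟩ : ∃ η : ℝ, 0 < η ∧ η ≤ 1 / 2 ∧ η * K ≤ θ / 2 := by
    refine ⟨min (1 / 2) (θ / (2 * K)), lt_min (by norm_num) (by positivity), min_le_left _ _, ?_⟩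
    calc min (1 / 2) (θ / (2 * K)) * K ≤ θ / (2 * K) * K :=
          mul_le_mul_of_nonneg_right (min_le_right _ _) (by linarith)
      _ = θ / 2 := by field_simp
  obtain ⟨N2, hN2⟩ := eventually_atTop.1 ((ev_rpow_ge 2 (η / 2) (by positivity)).and
    ((ev_rpow_ge (((x0 : ℝ) + 2) ^ 2 + 1) η hη0).and
    ((ev_log_le (8 / c2 ^ 2) 2 (θ / 2) (by positivity)).and (eventually_ge_atTop 16))))
  refine ⟨⌈3 / (η / 4)⌉₊, c2 ^ 2 / 8, η / 4, by positivity, by positivity, N2, ?_⟩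
  intro N hN u L hu huL hL
  obtain ⟨v1, v2, v3, v6⟩ := hN2 N hN
  have hN1 : 1 ≤ N := by omega
  have hNr : (16 : ℝ) ≤ N := by exact_mod_cast v6
  have hN0 : (0 : ℝ) < N := by linarith
  have hN1r : (1 : ℝ) ≤ N := by linarith
  have hlog : 1 ≤ Real.log (N : ℝ) := by
    rw [Real.le_log_iff_exp_le hN0]
    have := Real.exp_one_lt_d9
    linarith
  have v1' : 2 ≤ (N : ℝ) ^ η :=
    v1.trans (Real.rpow_le_rpow_of_exponent_le hN1r (by linarith))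
  obtain ⟨y, hy⟩ : ∃ y : ℕ, y = yJ (JN η N) := ⟨_, rfl⟩
  have hyle : (y : ℝ) ≤ (N : ℝ) ^ η := by rw [hy]; exact yJ_le v1'
  have hygt : (N : ℝ) ^ η < ((y : ℕ) + 1 : ℝ) ^ 2 + 1 := by rw [hy]; exact yJ_gt v1'
  have hyx0 : x0 + 1 ≤ y := by
    by_contra hlt
    push Not at hlt
    have h1 : (y : ℝ) + 1 ≤ (x0 : ℝ) + 2 := by
      have : y + 1 ≤ x0 + 2 := by omega
      exact_mod_cast this
    have h3 : ((y : ℝ) + 1) ^ 2 ≤ ((x0 : ℝ) + 2) ^ 2 := pow_le_pow_left₀ (by linarith [Nat.cast_nonneg (α := ℝ) y]) h1 2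
    linarith
  have h2J : (2 : ℝ) ^ JN η N ≤ Real.log N := by
    have h1 := Real.log_le_log (by positivity) (JN_le v1')
    rw [Real.log_pow, Real.log_rpow hN0] at h1
    push_cast at h1
    have h2 := Real.log_two_gt_d9
    have h3 : (0 : ℝ) ≤ (2 : ℝ) ^ JN η N := by positivity
    have h4 : (2 : ℝ) ^ JN η N * (1 / 2) ≤ (2 : ℝ) ^ JN η N * Real.log 2 :=
      mul_le_mul_of_nonneg_left (by linarith) h3
    have h5 : η * Real.log N ≤ 1 / 2 * Real.log N := mul_le_mul_of_nonneg_right hη1 (by linarith)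
    linarith
  have hVy : c2 / Real.log N ≤ Vz y := by
    have h1 := (hV (JN η N)).1
    rw [← hy] at h1
    exact (div_le_div_of_nonneg_left hc2.le (by positivity) h2J).trans h1
  have hprod := prod_low y (fun p => nuB (Q N u) p) (nu_at_two N u) (fun p hp => nu_le_two N u p hp)
  have hs := (abs_le.1 (hsys (y ^ K) y (by omega) le_rfl (Q N u) (perB N u) L)).1
  have hyK : √((y ^ K : ℕ) : ℝ) ≤ (N : ℝ) ^ (θ / 2) := by
    have h1 := pow_level (k := K) (t := θ / 2) hN1 hyle hηK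
    have h2 : (1 : ℝ) ≤ ((y ^ K : ℕ) : ℝ) := by
      have : 1 ≤ y ^ K := Nat.one_le_pow _ _ (by omega)
      exact_mod_cast this
    refine le_trans ?_ h1
    rw [Real.sqrt_le_left (by linarith)]
    nlinarith
  have hcnt : c2 ^ 2 / 8 * ((L : ℝ) / Real.log N ^ 2) ≤
      ((((Icc 1 L).filter (fun n : ℕ => ∀ p ∈ pz y, ¬ Q N u p n)).card : ℕ) : ℝ) := by
    apply low_alm (V := Vz y) (P := ∏ p ∈ pz y, (1 - (nuB (Q N u) p : ℝ) / p)) (t := √((y ^ K : ℕ) : ℝ)) hc2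
      (by linarith) (Nat.cast_nonneg _) hVy hprod
    · refine hyK.trans ?_
      have h1 : (N : ℝ) ^ θ = (N : ℝ) ^ (θ / 2) * (N : ℝ) ^ (θ / 2) := by
        rw [← Real.rpow_add hN0]; ring_nf
      have h2 : (N : ℝ) ^ (θ / 2) * Real.log N ^ 2 * (8 / c2 ^ 2) ≤ L := by
        calc (N : ℝ) ^ (θ / 2) * Real.log N ^ 2 * (8 / c2 ^ 2) =
              (N : ℝ) ^ (θ / 2) * (8 / c2 ^ 2 * Real.log N ^ 2) := by ring
          _ ≤ (N : ℝ) ^ (θ / 2) * (N : ℝ) ^ (θ / 2) :=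
              mul_le_mul_of_nonneg_left v3 (Real.rpow_nonneg hN0.le _)
          _ ≤ L := by rw [← h1]; exact hL
      have h3 : (N : ℝ) ^ (θ / 2) = c2 ^ 2 / 8 * (((N : ℝ) ^ (θ / 2) * Real.log N ^ 2 * (8 / c2 ^ 2)) / Real.log N ^ 2) := by
        have : Real.log N ≠ 0 := by linarith
        field_simp
      rw [h3]
      apply mul_le_mul_of_nonneg_left _ (by positivity)
      exact div_le_div_of_nonneg_right h2 (sq_nonneg _)
    · linarith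
  refine hcnt.trans ?_
  have hinj : ((Icc 1 L).filter (fun n : ℕ => ∀ p ∈ pz y, ¬ Q N u p n)).card ≤
      ((Ioc u (u + L)).filter (fun k : ℕ =>
      (N ^ 2 + k + 1).primeFactorsList.length ≤ ⌈3 / (η / 4)⌉₊ ∧
      ((N + 1) ^ 2 - k).primeFactorsList.length ≤ ⌈3 / (η / 4)⌉₊ ∧
        ∀ p : ℕ, p.Prime → p ∣ (N ^ 2 + k + 1) * ((N + 1) ^ 2 - k) → (N : ℝ) ^ (η / 4) < p)).card := by
    apply card_le_card_of_injOn (fun n => u + n)
    · intro n hn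
      rw [mem_coe, mem_filter, mem_Icc] at hn
      obtain ⟨⟨h1, h2⟩, h3⟩ := hn
      show u + n ∈ _
      rw [mem_coe, mem_filter, mem_Ioc]
      have hk2 : u + n ≤ 2 * N := by omega
      have hsq : (N + 1) ^ 2 = N ^ 2 + 2 * N + 1 := by ring
      have hprimes : ∀ p : ℕ, p.Prime → p ∣ (N ^ 2 + (u + n) + 1) * ((N + 1) ^ 2 - (u + n)) →
          (N : ℝ) ^ (η / 4) < p := by
        intro p hp hd
        apply big_primes' hN1 v1 hygt
        by_contra hlt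
        apply h3 p (mem_pz.2 ⟨not_lt.1 hlt, hp⟩)
        unfold Q
        have e : (((N ^ 2 + (u + n) + 1) * ((N + 1) ^ 2 - (u + n)) : ℕ) : ℤ) =
            ((N : ℤ) ^ 2 + (u + n) + 1) * (((N : ℤ) + 1) ^ 2 - (u + n)) := by
          rw [Nat.cast_mul, Nat.cast_sub (by omega)]
          push_cast
          ring
        rw [← e]
        exact_mod_cast hd
      have hN3 : N ^ 2 + 2 * N + 1 ≤ N ^ 3 := by
        have : 16 * (N * N) ≤ N * (N * N) := Nat.mul_le_mul_right _ v6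
        nlinarith
      refine ⟨⟨by omega, by omega⟩, ?_, ?_, hprimes⟩
      · exact len_le (by omega) (by omega) (by omega) (by positivity) (Nat.le_ceil _)
          (fun p hp hd => hprimes p hp (Dvd.dvd.mul_right hd _))
      · exact len_le (by omega) (by omega) (by omega) (by positivity) (Nat.le_ceil _)
          (fun p hp hd => hprimes p hp (Dvd.dvd.mul_left hd _))
    · intro n _ n' _ h
      simp only at h
      omega
  exact_mod_cast hinj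

end Pool.Agent.K7.H67.SQ
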